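import Pool.Agent.W41.FU4

/-! Functions constant on coalescing trajectories inside a class modulo `d`. -/

set_option autoImplicit false

namespace Pool.Agent.W36.FD

open Pool.Agent.H320R2.PD Pool.Agent.H499R2.ND Finset Pool.Agent.H499R2.CO Pool.Agent.W41.FU

/-- bounded functions that take the same value at `x` and `y` whenever the trajectories are at the
same point at the same time and `x` and `y` are congruent modulo `d` -/
def SameD (d : ℤ) : Set (ℤ → ℝ) :=
  {f | (∀ x, |f x| ≤ 1) ∧ ∀ (j : ℕ) (x y : ℤ), (Tz d)^[j] x = (Tz d)^[j] y → d ∣ x - y → f x = f y}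

theorem sameT_sub (d : ℤ) : SameT d ⊆ SameD d := fun _ hf => ⟨hf.1, fun j x y h _ => hf.2 j x y h⟩

theorem sameD_mul {d : ℤ} {f : ℤ → ℝ} (hf : f ∈ SameD d) {φ : ℤ → ℝ} (h1 : ∀ x, |φ x| ≤ 1)
    (hφ : ∀ x y : ℤ, d ∣ x - y → φ x = φ y) : (fun x => f x * φ x) ∈ SameD d := by
  refine ⟨fun x => ?_, fun j x y h hd => ?_⟩
  · rw [abs_mul]
    have a1 := hf.1 x
    have a2 := h1 x
    nlinarith [abs_nonneg (f x), abs_nonneg (φ x)]
  · simp only
    rw [hf.2 j x y h hd, hφ x y hd]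

theorem sameD_two {d : ℤ} {f : ℤ → ℝ} (hf : f ∈ SameD d) (e : ℕ) : (fun x => f (2 ^ e * x)) ∈ SameD d := by
  refine ⟨fun x => hf.1 _, ?_⟩
  intro j x y hxy hd
  apply hf.2 (j + e)
  · have e1 : ∀ z : ℤ, (Tz d)^[j + e] (2 ^ e * z) = (Tz d)^[j] z := by
      intro z
      rw [Function.iterate_add_apply]
      have : (Tz d)^[e] (2 ^ e * z) = z := Td_two_pow d e z
      rw [this]
    rw [e1, e1, hxy]
  · rw [← mul_sub]
    exact hd.mul_left _

/-- the relation used to transport a function -/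
def Tr (d : ℤ) (k T : ℕ) (x M : ℤ) : Prop :=
  (∃ j : ℕ, (Tz d)^[j + T] M = (Tz d)^[j] x) ∧ d ∣ 3 ^ k * M - 2 ^ T * x

open Classical in
/-- the transported function -/
noncomputable def trf (d : ℤ) (f : ℤ → ℝ) (k T : ℕ) (x : ℤ) : ℝ :=
  if h : ∃ M, Tr d k T x M then f (Classical.choose h) else 0

theorem trf_eq {d : ℤ} (hd3 : IsCoprime d 3) {f : ℤ → ℝ} (hf : f ∈ SameD d) {k T : ℕ} {x M : ℤ}
    (h : Tr d k T x M) : f M = trf d f k T x := by
  classical
  unfold trf
  have hex : ∃ M, Tr d k T x M := ⟨M, h⟩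
  rw [dif_pos hex]
  obtain ⟨⟨j, hj⟩, h1⟩ := h
  obtain ⟨⟨j', hj'⟩, h1'⟩ := Classical.choose_spec hex
  set M' := Classical.choose hex with hM'
  apply hf.2 (j + j' + T)
  · have e1 : (Tz d)^[j + j' + T] M = (Tz d)^[j + j'] x := by
      rw [show j + j' + T = j' + (j + T) by ring, Function.iterate_add_apply, hj, ← Function.iterate_add_apply]
      congr 1
      ring
    have e2 : (Tz d)^[j + j' + T] M' = (Tz d)^[j + j'] x := by
      rw [show j + j' + T = j + (j' + T) by ring, Function.iterate_add_apply, hj', ← Function.iterate_add_apply]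
    rw [e1, e2]
  · have h2 : d ∣ 3 ^ k * (M - M') := by
      have := dvd_sub h1 h1'
      have e : 3 ^ k * M - 2 ^ T * x - (3 ^ k * M' - 2 ^ T * x) = 3 ^ k * (M - M') := by ring
      rwa [e] at this
    exact (hd3.pow_right (n := k)).dvd_of_dvd_mul_left h2

theorem trf_mem {d : ℤ} {f : ℤ → ℝ} (hf : f ∈ SameD d) (k T : ℕ) : trf d f k T ∈ SameD d := by
  classical
  refine ⟨fun x => ?_, fun i x y hxy hd => ?_⟩
  · unfold trf
    split_ifs
    · exact hf.1 _
    · simp
  · have key : ∀ x y : ℤ, (Tz d)^[i] x = (Tz d)^[i] y → d ∣ x - y → ∀ M, Tr d k T x M → Tr d k T y M := by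
      intro x y hxy hd M hM
      obtain ⟨⟨j, hj⟩, h1⟩ := hM
      refine ⟨⟨i + j, ?_⟩, ?_⟩
      · rw [add_assoc, Function.iterate_add_apply, hj, ← Function.iterate_add_apply, add_comm i j,
          Function.iterate_add_apply, hxy, ← Function.iterate_add_apply]
      · have := dvd_add h1 (hd.mul_left (2 ^ T))
        have e : 3 ^ k * M - 2 ^ T * x + 2 ^ T * (x - y) = 3 ^ k * M - 2 ^ T * y := by ring
        rwa [e] at this
    have hP : Tr d k T x = Tr d k T y := by
      funext M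
      apply propext
      exact ⟨key x y hxy hd M, key y x hxy.symm (by rw [← neg_sub]; exact hd.neg_right) M⟩
    unfold trf
    simp only [hP]

theorem sameD_closed {d : ℤ} (hd : Odd d) (hd3 : IsCoprime d 3) : Closed d (SameD d) := by
  intro f hf
  refine ⟨hf.1, fun k T => ⟨trf d f k T, trf_mem hf k T, ?_⟩⟩
  intro w hw hlen hsum M x hx hV
  apply trf_eq hd3 hf
  refine ⟨⟨0, ?_⟩, ?_⟩
  · rw [zero_add]
    rcases eq_or_ne w [] with rfl | hne
    · unfold Vw at hV
      simp [Wo] at hV hsum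
      subst hsum
      simpa using hV
    · have hM : Odd M := Vw_odd_left hd hw hne hV
      have := iter_word' hd w hw M x hM hx hV
      rw [hsum] at this
      exact this
  · unfold Vw at hV
    rw [hlen, hsum] at hV
    exact ⟨-(Wo w : ℤ), by rw [← hV]; ring⟩

/-- CANCELLATION AGAINST A SHIFT. -/
theorem cancel {d : ℤ} (hd : d % 2 = 1) {f : ℤ → ℝ} (hf : f ∈ SameD d) {g : ℤ → ℝ}
    (hg : ∀ x, |g x| ≤ 1) {a b : ℝ} (hab : a ≤ b) (m : ℕ) {u : ℤ} (hu : IsCoprime u 3) (v : ℤ) (k h1 : ℕ)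
    {ε1 : ℝ} (h0 : ∀ x : ℤ, a ≤ x → (x : ℝ) < b → |g (x + 2 * 3 ^ m * ((d.natAbs * h1 : ℕ) : ℤ)) + g x| ≤ ε1)
    (hε1 : 0 ≤ ε1) :
    |WS (fun x => f x * g x) a b m u v| ≤
      q step (0, 0) k (0, -(d.sign * (2 * 3 ^ m * h1))) * ((b - a) / 3 ^ m + 2 ^ k) + ((d.natAbs * h1 : ℕ) : ℝ) + 1
        + ε1 * ((b - a) / (2 * 3 ^ m) + 1) := by
  classical
  set h' : ℕ := d.natAbs * h1 with hh'
  set h : ℤ := 2 * 3 ^ m * h' with hh
  set r : ℤ := -(d.sign * (2 * 3 ^ m * h1)) with hr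
  have hdr : d * r = -h := by
    rw [hr, hh, hh']
    have e1 : d * d.sign = (d.natAbs : ℤ) := Int.mul_sign_self d
    have e2 : ((d.natAbs * h1 : ℕ) : ℤ) = (d.natAbs : ℤ) * h1 := Nat.cast_mul _ _
    rw [e2]
    calc d * -(d.sign * (2 * 3 ^ m * h1)) = -((d * d.sign) * (2 * 3 ^ m * h1)) := by ring
      _ = _ := by rw [e1]; ring
  set C := cls Set.univ a b m u v with hC
  set C' := cls Set.univ (a + (-(h : ℝ))) (b + (-(h : ℝ))) m u v with hC'
  -- step 1: replace f x by f (x - h)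
  have s1 : |∑ x ∈ C, f x * g x - ∑ x ∈ C, f (x - h) * g x|
      ≤ 2 * (q step (0, 0) k (0, r) * ((b - a) / 3 ^ m + 2 ^ k)) := by
    rw [← sum_sub_distrib]
    refine (abs_sum_le_sum_abs _ _).trans ?_
    have hb : ∀ x ∈ C, |f x * g x - f (x - h) * g x| ≤ if surv d k (0, r) x then 2 else 0 := by
      intro x _
      rw [← sub_mul, abs_mul]
      split_ifs with hs
      · have a1 := hf.1 x
        have a2 := hf.1 (x - h)
        have a3 := abs_sub (f x) (f (x - h))
        have a4 := hg x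
        nlinarith [abs_nonneg (g x), abs_nonneg (f x - f (x - h))]
      · obtain ⟨j, -, hj⟩ := coal hd k 0 r _ hs
        have e : (3 : ℤ) ^ 0 * x + d * r = x - h := by
          rw [hdr]; ring
        rw [e] at hj
        rw [hf.2 j x (x - h) hj ⟨-r, by rw [mul_neg, hdr]; ring⟩, sub_self, abs_zero, zero_mul]
    refine (sum_le_sum hb).trans ?_
    rw [← sum_filter, sum_const, nsmul_eq_mul]
    have := surv_card hd k (0, r) hab m hu v
    linarith
  -- step 2: reindex
  have s2 : ∑ x ∈ C, f (x - h) * g x = ∑ y ∈ C', f y * g (y + h) := by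
    apply sum_bij' (fun x _ => x - h) (fun y _ => y + h)
    · intro x hx
      rw [hC, mem_cls] at hx
      rw [hC', mem_cls]
      push_cast
      refine ⟨⟨by linarith [hx.1.1], by linarith [hx.1.2]⟩, ?_, Set.mem_univ _, ?_⟩
      · obtain ⟨t, ht⟩ := hx.2.1
        exact ⟨t - 3 ^ m * h', by rw [ht, hh]; ring⟩
      · have h9 := hx.2.2.2
        have e : u * (x - h) - v = (u * x - v) - 3 ^ m * (u * (2 * h')) := by rw [hh]; ring
        rw [e]
        exact dvd_sub h9 (dvd_mul_right _ _)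
    · intro y hy
      rw [hC', mem_cls] at hy
      rw [hC, mem_cls]
      push_cast
      refine ⟨⟨by linarith [hy.1.1], by linarith [hy.1.2]⟩, ?_, Set.mem_univ _, ?_⟩
      · obtain ⟨t, ht⟩ := hy.2.1
        exact ⟨t + 3 ^ m * h', by rw [ht, hh]; ring⟩
      · have h9 := hy.2.2.2
        have e : u * (y + h) - v = (u * y - v) + 3 ^ m * (u * (2 * h')) := by rw [hh]; ring
        rw [e]
        exact dvd_add h9 (dvd_mul_right _ _)
    · intro x _; ring
    · intro y _; ring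
    · intro x _
      rw [sub_add_cancel]
  -- step 3: shift the window back
  have hg' : ∀ x, |f x * g (x + h)| ≤ 1 := by
    intro x
    rw [abs_mul]
    have a1 := hf.1 x
    have a4 := hg (x + h)
    nlinarith [abs_nonneg (g (x + h)), abs_nonneg (f x)]
  have hh0 : (0 : ℝ) ≤ h := by rw [hh]; push_cast; positivity
  have s3 : |WS (fun x => f x * g (x + h)) (a + (-(h : ℝ))) (b + (-(h : ℝ))) m u v
      - WS (fun x => f x * g (x + h)) a b m u v| ≤ 2 * ((h : ℝ) / (2 * 3 ^ m) + 1) := by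
    apply shiftW hg' _ m hu v
    rw [abs_neg, abs_of_nonneg hh0]
  have e3 : (h : ℝ) / (2 * 3 ^ m) = h' := by
    rw [hh]; push_cast; field_simp
  rw [e3] at s3
  -- step 4: the sign change
  have s4 : |WS (fun x => f x * g (x + h)) a b m u v + WS (fun x => f x * g x) a b m u v|
      ≤ ε1 * ((b - a) / (2 * 3 ^ m) + 1) := by
    unfold WS
    rw [← hC, ← sum_add_distrib]
    refine (abs_sum_le_sum_abs _ _).trans ?_
    have hb : ∀ x ∈ C, |f x * g (x + h) + f x * g x| ≤ ε1 := by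
      intro x hx
      rw [hC, mem_cls] at hx
      rw [← mul_add, abs_mul]
      have a1 := hf.1 x
      have a2 := h0 x hx.1.1 hx.1.2
      have a3 := abs_nonneg (g (x + h) + g x)
      nlinarith [abs_nonneg (f x)]
    refine (sum_le_sum hb).trans ?_
    rw [sum_const, nsmul_eq_mul, mul_comm]
    exact mul_le_mul_of_nonneg_left (cls_card_le Set.univ hab m hu v) hε1
  have e0 : WS (fun x => f x * g x) a b m u v = ∑ x ∈ C, f x * g x := rfl
  have e5 : WS (fun x => f x * g (x + h)) (a + (-(h : ℝ))) (b + (-(h : ℝ))) m u v = ∑ y ∈ C', f y * g (y + h) := rfl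
  rw [e5, ← s2] at s3
  set S0 := WS (fun x => f x * g x) a b m u v with hS0
  rw [← e0] at s1
  set S1 := ∑ x ∈ C, f (x - h) * g x with hS1
  set S3 := WS (fun x => f x * g (x + h)) a b m u v with hS3
  set Q := q step (0, 0) k (0, r) * ((b - a) / 3 ^ m + 2 ^ k) with hQ
  have hX : 0 ≤ (b - a) / (2 * 3 ^ m) := div_nonneg (by linarith) (by positivity)
  rw [abs_le] at s1 s3 s4 ⊢
  have h9 : 0 ≤ ε1 * ((b - a) / (2 * 3 ^ m) + 1) := by positivity
  constructor
  · linarith [s1.1, s1.2, s3.1, s3.2, s4.1, s4.2]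
  · linarith [s1.1, s1.2, s3.1, s3.2, s4.1, s4.2]

end Pool.Agent.W36.FD
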