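import Pool.Agent.W36.FD.FD1
import Pool.Agent.W41.FU5

/-! Cancellation in the correlations with the additive characters, windows of odd integers. -/

set_option autoImplicit false

namespace Pool.Agent.W36.FD

open Pool.Agent.H320R2.PD Pool.Agent.H499R2.ND Finset Pool.Agent.H499R2.CO Pool.Agent.W41.FU

/-- the scales just above the frequency -/
theorem bottom_cos {d : ℤ} (hd : Odd d) {ε : ℝ} (hε : 0 < ε) (hε1 : ε ≤ 1) :
    ∃ η1 : ℝ, 0 < η1 ∧ η1 ≤ 1 / 2 ∧ ∀ η : ℝ, 0 < η → η ≤ η1 → ∃ T2 : ℝ, 1000 ≤ T2 ∧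
      ∀ b φ : ℝ, 0 < b → T2 ≤ Real.log (2 * Real.pi * b) → ∀ A : ℝ, 0 < A →
      (1 - η) * Real.log A ≤ Real.log (2 * Real.pi * b) →
      Real.log (2 * Real.pi * b) ≤ (1 - η / 2) * Real.log A → ∀ m : ℕ, (m : ℝ) ^ 2 ≤ Real.log A →
      PF (SameD d) (fun u => Real.cos (2 * Real.pi * b * u + φ)) A m ε := by
  have hdm : d % 2 = 1 := by obtain ⟨t, ht⟩ := hd; omega
  have hD1N : 1 ≤ d.natAbs := by omega
  obtain ⟨D, hDdef⟩ : ∃ D : ℝ, D = (d.natAbs : ℝ) := ⟨_, rfl⟩
  have hD1 : 1 ≤ D := by rw [hDdef]; exact_mod_cast hD1N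
  have hD0 : 0 < D := by linarith
  obtain ⟨θ, hθ, k0, hq⟩ := q_quant (show 0 < ε / 32 by positivity) (by linarith)
  refine ⟨min (1 / 2) (θ / 4), by positivity, min_le_left _ _, ?_⟩
  intro η hη hη1
  have hη2 : η ≤ 1 / 2 := hη1.trans (min_le_left _ _)
  have hηθ : η ≤ θ / 4 := hη1.trans (min_le_right _ _)
  refine ⟨1000 + 2 * ((k0 : ℝ) + 1) + (8 / θ + 4) + 64 / ε + (5 / η) ^ 2 + 128 * D / (η * ε), ?_, ?_⟩
  · have : 0 ≤ 2 * ((k0 : ℝ) + 1) + (8 / θ + 4) + 64 / ε + (5 / η) ^ 2 + 128 * D / (η * ε) := by positivity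
    linarith
  intro b φ hb hT2 A hA hA1 hA2 m hm f hf u v hu
  set β := 2 * Real.pi * b with hβ
  have hβ0 : 0 < β := by positivity
  set t := Real.log A with ht
  have hexpA : Real.exp t = A := Real.exp_log hA
  have hexpβ : Real.exp (Real.log β) = β := Real.exp_log hβ0
  have hlβ : 0 < Real.log β := by
    have : 0 ≤ 2 * ((k0 : ℝ) + 1) + (8 / θ + 4) + 64 / ε + (5 / η) ^ 2 + 128 * D / (η * ε) := by positivity
    linarith
  have htβ : Real.log β ≤ t := by
    have : 0 < t := by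
      by_contra hcon
      push Not at hcon
      nlinarith
    nlinarith
  have p1 : 0 ≤ 2 * ((k0 : ℝ) + 1) := by positivity
  have p2 : 0 ≤ 8 / θ + 4 := by positivity
  have p3 : 0 ≤ 64 / ε := by positivity
  have p4 : 0 ≤ (5 / η) ^ 2 := by positivity
  have p5 : 0 ≤ 128 * D / (η * ε) := by positivity
  have t1 : 1000 ≤ t := by linarith
  have t2 : 2 * ((k0 : ℝ) + 1) ≤ t := by linarith
  have t3 : 8 / θ + 4 ≤ t := by linarith
  have t4 : 64 / ε ≤ Real.log β := by linarith
  have t5 : (5 / η) ^ 2 ≤ t := by linarith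
  have t6 : 128 * D / (η * ε) ≤ t := by linarith
  have htpos : 0 < t := by linarith
  have hl1 := Real.log_two_lt_d9
  have hl2 := Real.log_two_gt_d9
  have hl0 : 0 < Real.log 2 := by linarith
  -- the number of steps
  set k := ⌊t / (2 * Real.log 2)⌋₊ with hk
  have hk1 : (k : ℝ) ≤ t / (2 * Real.log 2) := Nat.floor_le (by positivity)
  have hk1' : (k : ℝ) * Real.log 2 ≤ t / 2 := by
    rw [le_div_iff₀ (by positivity)] at hk1; linarith
  have hk2 : t / (2 * Real.log 2) - 1 ≤ k := by linarith [Nat.lt_floor_add_one (t / (2 * Real.log 2))]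
  have hk2' : t / 2 - Real.log 2 ≤ k * Real.log 2 := by
    have e : t / (2 * Real.log 2) * Real.log 2 = t / 2 := by field_simp
    nlinarith
  have hkk0 : k0 ≤ k := by
    have h1 : (k0 : ℝ) ≤ t / (2 * Real.log 2) := by
      rw [le_div_iff₀ (by positivity)]
      nlinarith [(Nat.cast_nonneg k0 : (0 : ℝ) ≤ k0)]
    exact Nat.le_floor h1
  -- sizes
  have h3m1 : (3 : ℝ) ^ m ≤ Real.exp (0.05 * t) := pow_m_le t1 hm
  have h3m2 : (3 : ℝ) ^ m ≤ Real.exp (η * t / 4) := by
    have h2 : (3 : ℝ) ^ m = Real.exp (Real.log 3 * m) := by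
      rw [mul_comm (Real.log 3), Real.exp_nat_mul, Real.exp_log (by norm_num)]
    rw [h2]
    apply Real.exp_le_exp.2
    have h3 := log3_le
    have h5 : Real.log 3 ≤ 1.2 := by linarith
    set r := Real.sqrt t with hr
    have hrsq : r ^ 2 = t := Real.sq_sqrt htpos.le
    have hmr : (m : ℝ) ≤ r := Real.le_sqrt_of_sq_le hm
    have hr5 : 5 / η ≤ r := Real.le_sqrt_of_sq_le t5
    rw [div_le_iff₀ hη] at hr5
    have h7 : 0 ≤ (m : ℝ) := Nat.cast_nonneg m
    have h8 : Real.log 3 * m ≤ 1.2 * r := by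
      have : 0 ≤ Real.log 3 := by linarith [log3_ge]
      nlinarith
    have h9 : η * t / 4 = (r * η) * r / 4 := by rw [← hrsq]; ring
    rw [h9]
    have hr0 : 0 ≤ r := Real.sqrt_nonneg _
    nlinarith
  have h3m0 : (1 : ℝ) ≤ 3 ^ m := one_le_pow₀ (by norm_num)
  set Y := A / (2 * 3 ^ m) with hY
  have hY0 : 0 < Y := by positivity
  have hYbig : Real.exp (0.95 * t) ≤ 2 * Y := by
    have e : 2 * Y = A / 3 ^ m := by rw [hY]; field_simp
    rw [e, le_div_iff₀ (by positivity), ← hexpA]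
    calc Real.exp (0.95 * t) * 3 ^ m ≤ Real.exp (0.95 * t) * Real.exp (0.05 * t) :=
          mul_le_mul_of_nonneg_left h3m1 (Real.exp_pos _).le
      _ = Real.exp t := by rw [← Real.exp_add]; congr 1; ring
  have h2k : (2 : ℝ) ^ k ≤ 2 * Y := by
    have h2 : (2 : ℝ) ^ k = Real.exp (k * Real.log 2) := by
      rw [Real.exp_nat_mul, Real.exp_log (by norm_num)]
    rw [h2]
    refine le_trans (Real.exp_le_exp.2 ?_) hYbig
    linarith
  -- the shift
  set y := A / (4 * b * 3 ^ m) with hy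
  have hy0 : 0 < y := by positivity
  obtain ⟨h1, hh1def⟩ : ∃ h1 : ℕ, h1 = ⌊y / D⌋₊ := ⟨_, rfl⟩
  have hf1 : (h1 : ℝ) ≤ y / D := by rw [hh1def]; exact Nat.floor_le (by positivity)
  have hf2 : y / D - 1 ≤ h1 := by rw [hh1def]; linarith [Nat.lt_floor_add_one (y / D)]
  obtain ⟨h', hh'⟩ : ∃ h' : ℕ, h' = d.natAbs * h1 := ⟨_, rfl⟩
  have hh'R : (h' : ℝ) = D * h1 := by rw [hh', Nat.cast_mul, ← hDdef]
  have hh1 : (h' : ℝ) ≤ y := by
    rw [hh'R]
    have := mul_le_mul_of_nonneg_left hf1 hD0.le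
    have e : D * (y / D) = y := by field_simp
    linarith
  have hh2 : y - D ≤ h' := by
    rw [hh'R]
    have := mul_le_mul_of_nonneg_left hf2 hD0.le
    have e : D * (y / D - 1) = y - D := by field_simp
    linarith
  have hh3 : (h1 : ℝ) ≤ y := by
    refine le_trans ?_ hh1
    rw [hh'R]
    have : (0 : ℝ) ≤ h1 := Nat.cast_nonneg _
    nlinarith
  have hbbig : 8 / ε ≤ b := by
    have h1 : Real.log β ≤ β := by
      have := Real.add_one_le_exp (Real.log β)
      rw [hexpβ] at this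
      linarith
    have h2 : β ≤ 8 * b := by
      rw [hβ]
      have := Real.pi_lt_four
      nlinarith
    have h3 : 64 / ε = 8 * (8 / ε) := by ring
    linarith
  have hyY : (h' : ℝ) ≤ ε / 16 * Y := by
    refine hh1.trans ?_
    have e : y = Y / (2 * b) := by rw [hy, hY]; field_simp; ring
    rw [e, div_le_iff₀ (by positivity)]
    have h1 : 1 ≤ ε / 16 * (2 * b) := by
      rw [div_le_iff₀ hε] at hbbig
      linarith
    nlinarith
  have hone : 1 ≤ ε / 16 * Y := by
    have h1 : 64 / ε ≤ t := t4.trans htβ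
    have h2 : t ≤ Real.exp (0.95 * t) := by
      have h3 := Real.quadratic_le_exp_of_nonneg (x := 0.95 * t) (by positivity)
      nlinarith
    have h3 : 64 / ε ≤ 2 * Y := h1.trans (h2.trans hYbig)
    rw [div_le_iff₀ hε] at h3
    linarith
  -- the phase
  have hphase : 4 * Real.pi * b * 3 ^ m / A * D ≤ ε / 16 := by
    have e : 4 * Real.pi * b * 3 ^ m / A = 2 * β * 3 ^ m / A := by rw [hβ]; ring
    rw [e]
    have h1 : β * 3 ^ m / A ≤ Real.exp (-(η * t / 4)) := by
      have h2 : β ≤ Real.exp ((1 - η / 2) * t) := by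
        rw [← hexpβ]; exact Real.exp_le_exp.2 hA2
      have h3 : β * 3 ^ m / A ≤ Real.exp ((1 - η / 2) * t) * Real.exp (η * t / 4) / Real.exp t := by
        rw [← hexpA]
        apply div_le_div_of_nonneg_right _ (Real.exp_pos _).le
        exact mul_le_mul h2 h3m2 (by positivity) (Real.exp_pos _).le
      refine h3.trans (le_of_eq ?_)
      rw [← Real.exp_add, ← Real.exp_sub]
      congr 1
      ring
    have h4 := exp_neg_le_inv (x := η * t / 4) (by positivity)
    have h5 : 1 / (η * t / 4) * D ≤ ε / 32 := by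
      rw [div_mul_eq_mul_div, div_le_div_iff₀ (by positivity) (by norm_num)]
      rw [div_le_iff₀ (by positivity)] at t6
      nlinarith
    have h6 : 2 * β * 3 ^ m / A = 2 * (β * 3 ^ m / A) := by ring
    rw [h6]
    have h7 := mul_le_mul_of_nonneg_right (h1.trans h4) hD0.le
    linarith
  have hG : ∀ x : ℤ, |Real.cos (β * ((x : ℝ) / A) + φ)| ≤ 1 := fun x => Real.abs_cos_le_one _
  have key := cancel hdm hf (g := fun x => Real.cos (β * ((x : ℝ) / A) + φ)) hG
    (by linarith : A ≤ 2 * A) m hu v k h1 (ε1 := ε / 16) (by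
      intro x _ _
      rw [← hh']
      have e1 : Real.cos (β * ((x : ℝ) / A) + φ) = -Real.cos (β * ((x : ℝ) / A) + φ + Real.pi) := by
        rw [Real.cos_add_pi]; ring
      have e2 : Real.cos (β * (((x + 2 * 3 ^ m * h' : ℤ) : ℝ) / A) + φ) + Real.cos (β * ((x : ℝ) / A) + φ)
          = Real.cos (β * (((x + 2 * 3 ^ m * h' : ℤ) : ℝ) / A) + φ)
            - Real.cos (β * ((x : ℝ) / A) + φ + Real.pi) := by rw [e1]; ring
      rw [e2]
      refine (Real.abs_cos_sub_cos_le _ _).trans ?_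
      have e3 : β * (((x + 2 * 3 ^ m * h' : ℤ) : ℝ) / A) + φ - (β * ((x : ℝ) / A) + φ + Real.pi)
          = 4 * Real.pi * b * 3 ^ m / A * (h' - y) := by
        rw [hβ, hy]; push_cast; field_simp; ring
      rw [e3, abs_mul, abs_of_nonneg (by positivity : 0 ≤ 4 * Real.pi * b * 3 ^ m / A)]
      have h7 : |(h' : ℝ) - y| ≤ D := by
        rw [abs_le]; constructor <;> linarith
      calc 4 * Real.pi * b * 3 ^ m / A * |(h' : ℝ) - y| ≤ 4 * Real.pi * b * 3 ^ m / A * D :=
            mul_le_mul_of_nonneg_left h7 (by positivity)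
        _ ≤ ε / 16 := hphase) (by positivity)
  rw [← hh'] at key
  refine key.trans ?_
  -- the coupling
  have hqq : q step (0, 0) k (0, -(d.sign * (2 * 3 ^ m * h1))) ≤ ε / 32 := by
    apply hq k hkk0
    have hd1 : |((d.sign : ℤ) : ℝ)| = 1 := by
      have h0 : d ≠ 0 := by omega
      rw [← Int.cast_abs, Int.abs_sign_of_ne_zero h0, Int.cast_one]
    rw [Int.cast_neg, Int.cast_mul, abs_neg, abs_mul, hd1, one_mul]
    push_cast
    rw [abs_of_nonneg (by positivity)]
    have h1 : 2 * 3 ^ m * (h1 : ℝ) ≤ Real.pi * Real.exp (η * t) := by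
      calc 2 * 3 ^ m * (h1 : ℝ) ≤ 2 * 3 ^ m * y := mul_le_mul_of_nonneg_left hh3 (by positivity)
        _ = Real.pi * (A / β) := by rw [hy, hβ]; field_simp; ring
        _ ≤ Real.pi * Real.exp (η * t) := by
            apply mul_le_mul_of_nonneg_left _ Real.pi_pos.le
            rw [← hexpA, ← hexpβ, ← Real.exp_sub]
            apply Real.exp_le_exp.2
            linarith
    refine h1.trans ?_
    have h2 : (2 : ℝ) ^ (θ * k) = Real.exp (θ * (k * Real.log 2)) := by
      rw [Real.rpow_def_of_pos (by norm_num)]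
      congr 1; ring
    rw [h2]
    have h3 : Real.pi ≤ Real.exp 2 := by
      have h4 := Real.pi_lt_four
      have h5 := Real.quadratic_le_exp_of_nonneg (x := 2) (by norm_num)
      linarith
    calc Real.pi * Real.exp (η * t) ≤ Real.exp 2 * Real.exp (η * t) :=
          mul_le_mul_of_nonneg_right h3 (Real.exp_pos _).le
      _ = Real.exp (2 + η * t) := by rw [← Real.exp_add]
      _ ≤ Real.exp (θ * (k * Real.log 2)) := by
          apply Real.exp_le_exp.2
          have h6 : θ * (t / 2 - Real.log 2) ≤ θ * (k * Real.log 2) := mul_le_mul_of_nonneg_left hk2' hθ.le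
          have h7 : 8 + 4 * θ ≤ θ * t := by
            have : (8 / θ + 4) * θ = 8 + 4 * θ := by field_simp
            nlinarith
          have h8 : η * t ≤ θ / 4 * t := mul_le_mul_of_nonneg_right hηθ htpos.le
          nlinarith
  have e4 : (2 * A - A) / 3 ^ m = 2 * Y := by rw [hY]; field_simp; ring
  have e5 : (2 * A - A) / (2 * 3 ^ m) = Y := by rw [hY]; ring
  rw [e4, e5]
  have h9 : q step (0, 0) k (0, -(d.sign * (2 * 3 ^ m * h1))) * (2 * Y + 2 ^ k) ≤ ε / 32 * (4 * Y) :=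
    mul_le_mul hqq (by linarith) (by positivity) (by positivity)
  have h10 : ε / 16 * (Y + 1) ≤ ε / 16 * (2 * Y) := by
    apply mul_le_mul_of_nonneg_left _ (by positivity)
    have : ε / 16 * Y ≤ 1 * Y := mul_le_mul_of_nonneg_right (by linarith) hY0.le
    linarith
  nlinarith

/-- ODD WINDOWS: cancellation in the correlations with the additive characters. -/
theorem odd_cos {d : ℤ} (hd : Odd d) (hd3 : IsCoprime d 3) {ε : ℝ} (hε : 0 < ε) (hε1 : ε ≤ 1) :
    ∃ η1 : ℝ, 0 < η1 ∧ η1 ≤ 1 / 2 ∧ ∀ η : ℝ, 0 < η → η ≤ η1 → ∃ B0 : ℝ, 1 ≤ B0 ∧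
      ∀ b φ : ℝ, B0 ≤ b → ∀ A : ℝ, 0 < A → Real.log (2 * Real.pi * b) ≤ (1 - η / 2) * Real.log A →
      ∀ f ∈ SameD d, |WS (fun x => f x * Real.cos (2 * Real.pi * b * (x / A) + φ)) A (2 * A) 0 1 0| ≤ ε * (A / 2) := by
  obtain ⟨η1, hη1, hη12, hbot⟩ := bottom_cos hd (show 0 < ε / 2 by positivity) (by linarith)
  refine ⟨η1, hη1, hη12, fun η hη hηη => ?_⟩
  obtain ⟨T2, hT2, hb⟩ := hbot η hη hηη
  obtain ⟨K, L0, hK, hL0, htr⟩ := transfer hd hd3 hη (hηη.trans hη12)
  refine ⟨Real.exp (max T2 (max L0 (2 * K / ε))), Real.one_le_exp ?_, ?_⟩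
  · exact le_trans (by linarith) (le_max_left _ _)
  intro b φ hB A hA hbA f hf
  have hb0 : 0 < b := lt_of_lt_of_le (Real.exp_pos _) hB
  have hlb : max T2 (max L0 (2 * K / ε)) ≤ Real.log (2 * Real.pi * b) := by
    have h1 : Real.exp (max T2 (max L0 (2 * K / ε))) ≤ 2 * Real.pi * b := by
      have := Real.pi_gt_three
      nlinarith
    calc _ = Real.log (Real.exp (max T2 (max L0 (2 * K / ε)))) := (Real.log_exp _).symm
      _ ≤ _ := Real.log_le_log (Real.exp_pos _) h1
  have hl1 : T2 ≤ Real.log (2 * Real.pi * b) := (le_max_left _ _).trans hlb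
  have hl2 : L0 ≤ Real.log (2 * Real.pi * b) := (le_max_left _ _).trans ((le_max_right _ _).trans hlb)
  have hl3 : 2 * K / ε ≤ Real.log (2 * Real.pi * b) := (le_max_right _ _).trans ((le_max_right _ _).trans hlb)
  have hβ1 : 1 ≤ 2 * Real.pi * b := by
    have h1 : Real.exp (max T2 (max L0 (2 * K / ε))) ≤ 2 * Real.pi * b := by
      have := Real.pi_gt_three
      nlinarith
    refine le_trans (Real.one_le_exp ?_) h1
    exact le_trans (by linarith) (le_max_left _ _)
  have hlpos : 0 < Real.log (2 * Real.pi * b) := by linarith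
  have hA0 : 0 < Real.log A := by
    by_contra hcon
    push Not at hcon
    have : η / 2 ≤ 1 / 4 := by linarith
    nlinarith
  have h := htr (2 * Real.pi * b) hl2 hβ1 (SameD d) (sameD_closed hd hd3)
    (fun u => Real.cos (2 * Real.pi * b * u + φ)) (fun u => Real.abs_cos_le_one _)
    (fun u v => by
      refine (Real.abs_cos_sub_cos_le _ _).trans (le_of_eq ?_)
      rw [show 2 * Real.pi * b * u + φ - (2 * Real.pi * b * v + φ) = 2 * Real.pi * b * (u - v) by ring,
        abs_mul, abs_of_nonneg (by positivity : 0 ≤ 2 * Real.pi * b)])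
    (ε / 2) (by positivity) (fun A hA h1 h2 m hm => hb b φ hb0 hl1 A hA h1 h2 m hm) A hA hbA 0
    (by push_cast; rw [zero_pow (by norm_num)]; exact hA0.le) f hf 1 0 isCoprime_one_left
  refine h.trans ?_
  rw [pow_zero, mul_one]
  apply mul_le_mul_of_nonneg_right _ (by positivity)
  have : K / Real.log (2 * Real.pi * b) ≤ ε / 2 := by
    rw [div_le_iff₀ hlpos]
    rw [div_le_iff₀ hε] at hl3
    linarith
  linarith

end Pool.Agent.W36.FD
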