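import Pool.Agent.W36.FD.FD2
import Pool.Agent.W41.FU6

/-! Cancellation in the correlations with the additive characters, middle range of frequencies. -/

set_option autoImplicit false

namespace Pool.Agent.W36.FD

open Pool.Agent.H320R2.PD Pool.Agent.H499R2.ND Finset Pool.Agent.H499R2.CO Pool.Agent.W41.FU

/-- MIDDLE RANGE of frequencies. -/
theorem mid {d : ℤ} (hd : Odd d) (hd3 : IsCoprime d 3) {ε : ℝ} (hε : 0 < ε) (hε1 : ε ≤ 1) :
    ∃ η1 : ℝ, 0 < η1 ∧ η1 ≤ 1 / 2 ∧ ∀ η : ℝ, 0 < η → η ≤ η1 → ∃ C : ℝ, 1 ≤ C ∧ ∃ N0 : ℕ, 1 ≤ N0 ∧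
      ∀ N : ℕ, N0 ≤ N → ∀ α φ : ℝ, C ≤ α * N → α * (N : ℝ) ^ η ≤ 1 → ∀ f ∈ SameD d,
      |∑ n ∈ Icc 1 N, f (n : ℕ) * Real.cos (2 * Real.pi * α * (n : ℕ) + φ)| ≤ ε * N := by
  obtain ⟨η1, hη1, hη12, hodd⟩ := odd_cos hd hd3 (show 0 < ε / 8 by positivity) (by linarith)
  refine ⟨η1, hη1, hη12, fun η hη hηη => ?_⟩
  obtain ⟨B0, hB0, hb⟩ := hodd η hη hηη
  obtain ⟨J, hJ⟩ := exists_pow_lt_of_lt_one (show 0 < ε / 16 by positivity) (show (1 / 2 : ℝ) < 1 by norm_num)
  -- N large
  set c0 : ℝ := 2 * (Real.log (4 * Real.pi) + 2 * J * Real.log 2) / η with hc0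
  refine ⟨B0 * 2 ^ J, ?_, ⌈Real.exp c0⌉₊ + ⌈8 * (J : ℝ) / ε⌉₊ + 1, by omega, ?_⟩
  · exact one_le_mul_of_one_le_of_one_le hB0 (one_le_pow₀ (by norm_num))
  intro N hN α φ hα1 hα2 f hf
  have hN1 : 1 ≤ N := by omega
  have hNR : (1 : ℝ) ≤ N := by exact_mod_cast hN1
  have hNe : Real.exp c0 ≤ N := by
    have h1 : ⌈Real.exp c0⌉₊ ≤ N := by omega
    exact (Nat.le_ceil _).trans (by exact_mod_cast h1)
  have hNJ : 8 * (J : ℝ) / ε ≤ N := by
    have h1 : ⌈8 * (J : ℝ) / ε⌉₊ ≤ N := by omega
    exact (Nat.le_ceil _).trans (by exact_mod_cast h1)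
  have hlogN : c0 ≤ Real.log N := by
    rw [← Real.log_exp c0]
    exact Real.log_le_log (Real.exp_pos _) hNe
  have hα0 : 0 < α := by
    have h1 : 0 < B0 * 2 ^ J := by positivity
    have h2 : 0 < α * N := by linarith
    by_contra hcon
    push Not at hcon
    nlinarith
  set M : ℝ := (N : ℝ) + 1 with hM
  have hM0 : 0 < M := by positivity
  set g : ℤ → ℝ := fun x => f x * Real.cos (2 * Real.pi * α * x + φ) with hg
  have hg1 : ∀ x, |g x| ≤ 1 := by
    intro x
    rw [hg]
    simp only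
    rw [abs_mul]
    have a1 := hf.1 x
    have a2 := Real.abs_cos_le_one (2 * Real.pi * α * x + φ)
    nlinarith [abs_nonneg (f x), abs_nonneg (Real.cos (2 * Real.pi * α * x + φ))]
  have hTS : ∑ n ∈ Icc 1 N, f (n : ℕ) * Real.cos (2 * Real.pi * α * (n : ℕ) + φ) = TS g M := by
    unfold TS
    have hceil : ⌈M⌉ = (N : ℤ) + 1 := by
      rw [hM]
      have : ((N : ℝ) + 1) = (((N : ℤ) + 1 : ℤ) : ℝ) := by push_cast; ring
      rw [this, Int.ceil_intCast]
    rw [hceil]
    refine sum_bij' (fun (n : ℕ) _ => (n : ℤ)) (fun (x : ℤ) _ => x.toNat) ?_ ?_ ?_ ?_ ?_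
    · intro n hn
      rw [mem_Icc] at hn
      rw [mem_Ico]
      omega
    · intro x hx
      rw [mem_Ico] at hx
      rw [mem_Icc]
      omega
    · intro n _; simp
    · intro x hx
      rw [mem_Ico] at hx
      exact Int.toNat_of_nonneg (by omega)
    · intro n _
      rw [hg]
      simp
  rw [hTS]
  have h2J : (0 : ℝ) < 2 ^ J := by positivity
  have key := TS_bound hg1 hM0.le (show 0 ≤ ε / 8 by positivity) J (by
    intro e j he hj
    set A := M / 2 ^ (e + j + 1) with hA
    have hA0 : 0 < A := by positivity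
    set b := α * M / 2 ^ (j + 1) with hbdef
    have hfun : (fun x : ℤ => g (2 ^ e * x))
        = fun x => (fun x => f (2 ^ e * x)) x * Real.cos (2 * Real.pi * b * (x / A) + φ) := by
      funext x
      rw [hg]
      simp only
      congr 2
      rw [hbdef, hA]
      push_cast
      rw [show e + j + 1 = e + (j + 1) by ring, pow_add 2 e (j + 1)]
      field_simp
    rw [hfun]
    apply hb b φ _ A hA0 _ _ (sameD_two hf e)
    · -- B0 ≤ b
      rw [hbdef, le_div_iff₀ (by positivity)]
      calc B0 * 2 ^ (j + 1) ≤ B0 * 2 ^ J := by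
            apply mul_le_mul_of_nonneg_left _ (by linarith)
            exact pow_le_pow_right₀ (by norm_num) (by omega)
        _ ≤ α * N := hα1
        _ ≤ α * M := mul_le_mul_of_nonneg_left (by linarith) hα0.le
    · -- size
      have hb0 : 0 < b := by positivity
      have h1 : 2 * Real.pi * b ≤ 4 * Real.pi * (N : ℝ) ^ (1 - η) := by
        have e1 : b ≤ α * M := by
          rw [hbdef]
          apply div_le_self (by positivity)
          exact one_le_pow₀ (by norm_num)
        have e2 : M ≤ 2 * N := by rw [hM]; linarith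
        have e3 : α ≤ (N : ℝ) ^ (-η) := by
          rw [Real.rpow_neg (by linarith), ← one_div, le_div_iff₀ (by positivity)]
          exact hα2
        have e4 : (N : ℝ) ^ (-η) * N = (N : ℝ) ^ (1 - η) := by
          rw [show (1 - η) = -η + 1 by ring, Real.rpow_add (by linarith), Real.rpow_one]
        have e5 : α * M ≤ 2 * (N : ℝ) ^ (1 - η) := by
          calc α * M ≤ (N : ℝ) ^ (-η) * (2 * N) := mul_le_mul e3 e2 (by linarith) (by positivity)
            _ = 2 * ((N : ℝ) ^ (-η) * N) := by ring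
            _ = _ := by rw [e4]
        have hpi := Real.pi_pos
        nlinarith
      have h2 : Real.log (2 * Real.pi * b) ≤ Real.log (4 * Real.pi) + (1 - η) * Real.log N := by
        have hpi := Real.pi_pos
        rw [← Real.log_rpow (by linarith : (0 : ℝ) < N), ← Real.log_mul (by positivity) (by positivity)]
        exact Real.log_le_log (by positivity) h1
      have h3 : Real.log N - 2 * J * Real.log 2 ≤ Real.log A := by
        have e1 : (N : ℝ) / 2 ^ (2 * J) ≤ A := by
          rw [hA]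
          apply div_le_div₀ hM0.le (by linarith) (by positivity)
          exact pow_le_pow_right₀ (by norm_num) (by omega)
        have e2 : Real.log N - 2 * J * Real.log 2 = Real.log ((N : ℝ) / 2 ^ (2 * J)) := by
          rw [Real.log_div (by positivity) (by positivity), Real.log_pow]
          push_cast; ring
        rw [e2]
        exact Real.log_le_log (by positivity) e1
      have h4 : η * c0 = 2 * (Real.log (4 * Real.pi) + 2 * J * Real.log 2) := by
        rw [hc0]; field_simp
      have h5 : η * c0 ≤ η * Real.log N := mul_le_mul_of_nonneg_left hlogN hη.le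
      have h6 : 0 ≤ (J : ℝ) * Real.log 2 := mul_nonneg (Nat.cast_nonneg _) (Real.log_nonneg (by norm_num))
      have h7 : η ≤ 1 / 2 := hηη.trans hη12
      have h8 : (1 - η / 2) * (Real.log N - 2 * J * Real.log 2) ≤ (1 - η / 2) * Real.log A :=
        mul_le_mul_of_nonneg_left h3 (by linarith)
      have h9 : 0 ≤ η / 2 * (2 * J * Real.log 2) := by positivity
      linarith)
  refine key.trans ?_
  have h1 : 2 * M / 2 ^ J ≤ ε / 4 * N := by
    have e1 : (1 / 2 : ℝ) ^ J = 1 / 2 ^ J := by rw [one_div, inv_pow, one_div]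
    rw [e1] at hJ
    have e2 : 2 * M / 2 ^ J = 2 * M * (1 / 2 ^ J) := by ring
    rw [e2]
    have e3 : M ≤ 2 * N := by rw [hM]; linarith
    calc 2 * M * (1 / 2 ^ J) ≤ 2 * (2 * N) * (ε / 16) :=
          mul_le_mul (by linarith) hJ.le (by positivity) (by positivity)
      _ = _ := by ring
  have h2 : (J : ℝ) ≤ ε / 8 * N := by
    rw [div_le_iff₀ hε] at hNJ
    linarith
  have h3 : ε / 8 * M ≤ ε / 4 * N := by
    rw [hM]
    nlinarith
  linarith

end Pool.Agent.W36.FD
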