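import Pool.Agent.W36.FD.FD3
import Pool.Agent.W41.FU7

/-! Fourier uniformity for the maps with a constant `d`: all frequencies away from the multiples of
`1 / d`. -/

set_option autoImplicit false

namespace Pool.Agent.W36.FD

open Pool.Agent.H320R2.PD Pool.Agent.H499R2.ND Finset Pool.Agent.H499R2.CO Pool.Agent.W41 Pool.Agent.W41.FU

/-- LARGE frequencies. -/
theorem large {d : ℤ} (hd : Odd d) {ε : ℝ} (hε : 0 < ε) (hε1 : ε ≤ 1) :
    ∃ η : ℝ, 0 < η ∧ η ≤ 1 / 2 ∧ ∃ N0 : ℕ, 1 ≤ N0 ∧ ∀ N : ℕ, N0 ≤ N → ∀ α : ℝ, 0 < α → α * (d.natAbs : ℝ) ≤ 1 / 2 →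
      1 ≤ α * (N : ℝ) ^ η → ∀ f ∈ SameD d, ‖EE f N α‖ ≤ ε * N := by
  classical
  have hdm : d % 2 = 1 := by obtain ⟨t, ht⟩ := hd; omega
  have hD1N : 1 ≤ d.natAbs := by omega
  obtain ⟨D, hDdef⟩ : ∃ D : ℝ, D = (d.natAbs : ℝ) := ⟨_, rfl⟩
  have hD1 : 1 ≤ D := by rw [hDdef]; exact_mod_cast hD1N
  have hD0 : 0 < D := by linarith
  rw [← hDdef]
  obtain ⟨θ, hθ, k0, hq⟩ := q_quant (show 0 < ε / 32 by positivity) (by linarith)
  obtain ⟨K, y0, hK, hy0, hs⟩ := surv_sum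
  have hl1 := Real.log_two_lt_d9
  have hl2 := Real.log_two_gt_d9
  have hl0 : 0 < Real.log 2 := by linarith
  refine ⟨min (1 / 2) (θ / 4), by positivity, min_le_left _ _, ?_⟩
  set η := min (1 / 2) (θ / 4) with hη
  have hη0 : 0 < η := by positivity
  have hη2 : η ≤ 1 / 2 := min_le_left _ _
  have hηθ : η ≤ θ / 4 := min_le_right _ _
  refine ⟨⌈Real.exp (2 * ((k0 : ℝ) + 1) + 8)⌉₊ + (y0 ^ K) ^ 2 + ⌈(16 / ε) ^ 2⌉₊ + 1, by omega, ?_⟩
  intro N hN α hα0 hα1 hα2 f hf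
  have hN1 : 1 ≤ N := by omega
  have hNR : (1 : ℝ) ≤ N := by exact_mod_cast hN1
  have hN2 : Real.exp (2 * ((k0 : ℝ) + 1) + 8) ≤ N := by
    have h1 : ⌈Real.exp (2 * ((k0 : ℝ) + 1) + 8)⌉₊ ≤ N := by omega
    exact (Nat.le_ceil _).trans (by exact_mod_cast h1)
  have hN3 : (y0 ^ K) ^ 2 ≤ N := by omega
  have hN4 : (16 / ε) ^ 2 ≤ (N : ℝ) := by
    have h1 : ⌈(16 / ε) ^ 2⌉₊ ≤ N := by omega
    exact (Nat.le_ceil _).trans (by exact_mod_cast h1)
  set t := Real.log N with ht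
  have hexp : Real.exp t = N := Real.exp_log (by linarith)
  have htk : 2 * ((k0 : ℝ) + 1) + 8 ≤ t := by
    rw [← Real.log_exp (2 * ((k0 : ℝ) + 1) + 8)]
    exact Real.log_le_log (Real.exp_pos _) hN2
  have hk00 : (0 : ℝ) ≤ k0 := Nat.cast_nonneg _
  have htpos : 0 < t := by linarith
  set k := ⌊t / (2 * Real.log 2)⌋₊ with hk
  have hk1 : (k : ℝ) ≤ t / (2 * Real.log 2) := Nat.floor_le (by positivity)
  have hk1' : (k : ℝ) * Real.log 2 ≤ t / 2 := by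
    rw [le_div_iff₀ (by positivity)] at hk1; linarith
  have hk2 : t / (2 * Real.log 2) - 1 ≤ k := by linarith [Nat.lt_floor_add_one (t / (2 * Real.log 2))]
  have hk2' : t / 2 - Real.log 2 ≤ k * Real.log 2 := by
    have e : t / (2 * Real.log 2) * Real.log 2 = t / 2 := by field_simp
    nlinarith
  have hkk0 : k0 ≤ k := by
    have h1 : (k0 : ℝ) ≤ t / (2 * Real.log 2) := by
      rw [le_div_iff₀ (by positivity)]
      nlinarith
    exact Nat.le_floor h1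
  have h2k : ((2 : ℝ) ^ k) ^ 2 ≤ N := by
    have h2 : (2 : ℝ) ^ k = Real.exp (k * Real.log 2) := by
      rw [Real.exp_nat_mul, Real.exp_log (by norm_num)]
    rw [h2, ← Real.exp_nat_mul, ← hexp]
    apply Real.exp_le_exp.2
    push_cast
    linarith
  have hcond : 2 ^ k * y0 ^ K ≤ N := by
    have h1 : (2 ^ k) ^ 2 ≤ N := by exact_mod_cast h2k
    by_contra hcon
    push Not at hcon
    have h3 : N * N < (2 ^ k * y0 ^ K) * (2 ^ k * y0 ^ K) := Nat.mul_lt_mul'' hcon hcon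
    have h4 : (2 ^ k * y0 ^ K) * (2 ^ k * y0 ^ K) = (2 ^ k) ^ 2 * (y0 ^ K) ^ 2 := by ring
    rw [h4] at h3
    have h5 := Nat.mul_le_mul h1 hN3
    omega
  -- the shift
  obtain ⟨h1, hh1def⟩ : ∃ h1 : ℕ, h1 = ⌈1 / (4 * α * D)⌉₊ := ⟨_, rfl⟩
  have hf1 : 1 / (4 * α * D) ≤ h1 := by rw [hh1def]; exact Nat.le_ceil _
  have hf2 : (h1 : ℝ) ≤ 1 / (4 * α * D) + 1 := by rw [hh1def]; exact (Nat.ceil_lt_add_one (by positivity)).le
  obtain ⟨h, hh⟩ : ∃ h : ℕ, h = d.natAbs * h1 := ⟨_, rfl⟩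
  have hhR : (h : ℝ) = D * h1 := by rw [hh, Nat.cast_mul, ← hDdef]
  have hh1h : (h1 : ℝ) ≤ h := by
    rw [hhR]
    have : (0 : ℝ) ≤ h1 := Nat.cast_nonneg _
    nlinarith
  have hah1 : 1 / 4 ≤ α * h := by
    have := mul_le_mul_of_nonneg_left hf1 (by positivity : 0 ≤ α * D)
    have e : α * D * (1 / (4 * α * D)) = 1 / 4 := by field_simp
    rw [hhR]
    linarith
  have hah2 : α * h ≤ 3 / 4 := by
    have := mul_le_mul_of_nonneg_left hf2 (by positivity : 0 ≤ α * D)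
    have e : α * D * (1 / (4 * α * D) + 1) = 1 / 4 + α * D := by field_simp
    rw [hhR]
    linarith
  obtain ⟨r, hr⟩ : ∃ r : ℤ, r = -(d.sign * (h1 : ℤ)) := ⟨_, rfl⟩
  have hdr : d * r = -(h : ℤ) := by
    rw [hr, hh]
    have e1 : d * d.sign = (d.natAbs : ℤ) := Int.mul_sign_self d
    have e2 : ((d.natAbs * h1 : ℕ) : ℤ) = (d.natAbs : ℤ) * h1 := Nat.cast_mul _ _
    rw [e2]
    calc d * -(d.sign * (h1 : ℤ)) = -((d * d.sign) * h1) := by ring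
      _ = _ := by rw [e1]
  have hhN : (h : ℝ) ≤ (N : ℝ) ^ η := by
    have h1 : (h : ℝ) * α ≤ (N : ℝ) ^ η * α := by linarith
    exact le_of_mul_le_mul_right h1 hα0
  have hhs : (N : ℝ) ^ η ≤ ε / 16 * N := by
    have h1 : (N : ℝ) ^ η ≤ (N : ℝ) ^ (1 / 2 : ℝ) := Real.rpow_le_rpow_of_exponent_le hNR hη2
    have h2 : (N : ℝ) ^ (1 / 2 : ℝ) = Real.sqrt N := (Real.sqrt_eq_rpow N).symm
    rw [h2] at h1
    have h3 : 16 / ε ≤ Real.sqrt N := Real.le_sqrt_of_sq_le hN4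
    have h4 : Real.sqrt N * Real.sqrt N = N := Real.mul_self_sqrt (by linarith)
    rw [div_le_iff₀ hε] at h3
    have h5 : 0 ≤ Real.sqrt N := Real.sqrt_nonneg _
    nlinarith
  have hqq : q step (0, 0) k (0, r) ≤ ε / 32 := by
    apply hq k hkk0
    have hd1 : |((d.sign : ℤ) : ℝ)| = 1 := by
      have h0 : d ≠ 0 := by omega
      rw [← Int.cast_abs, Int.abs_sign_of_ne_zero h0, Int.cast_one]
    rw [hr, Int.cast_neg, Int.cast_mul, abs_neg, abs_mul, hd1, one_mul]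
    push_cast
    rw [abs_of_nonneg (by positivity)]
    refine (hh1h.trans hhN).trans ?_
    have h2 : (2 : ℝ) ^ (θ * k) = Real.exp (θ * (k * Real.log 2)) := by
      rw [Real.rpow_def_of_pos (by norm_num)]
      congr 1; ring
    rw [h2, Real.rpow_def_of_pos (by linarith), ← ht]
    apply Real.exp_le_exp.2
    have h6 : θ * (t / 2 - Real.log 2) ≤ θ * (k * Real.log 2) := mul_le_mul_of_nonneg_left hk2' hθ.le
    have h8 : t * η ≤ t * (θ / 4) := mul_le_mul_of_nonneg_left hηθ htpos.le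
    nlinarith
  -- the comparison
  have hsurv := hs y0 le_rfl k N hcond ∅ (by simp) 0 1 (by simp) d hdm 0 1 (by norm_num) (0, r)
  have hV : Pool.Agent.W41.V ∅ = 1 := by unfold Pool.Agent.W41.V; simp
  have s1 : ‖EE f N α - ∑ n ∈ Icc 1 N, (f ((n : ℕ) - (h : ℕ)) : ℂ) * ee α (n : ℕ)‖ ≤ ε / 2 * N := by
    unfold EE
    rw [← sum_sub_distrib]
    refine (norm_sum_le _ _).trans ?_
    have hb : ∀ n ∈ Icc 1 N, ‖(f (n : ℕ) : ℂ) * ee α (n : ℕ) - (f ((n : ℕ) - (h : ℕ)) : ℂ) * ee α (n : ℕ)‖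
        ≤ 2 * (wt ∅ 0 1 (n : ℕ) * (if surv d k (0, r) (0 + 1 * (n : ℕ)) then 1 else 0)) := by
      intro n _
      rw [← sub_mul, norm_mul, ee_norm, mul_one, ← Complex.ofReal_sub, Complex.norm_real, Real.norm_eq_abs]
      have hw : wt ∅ 0 1 (n : ℕ) = 1 := by unfold wt; simp
      rw [hw, one_mul, zero_add, one_mul]
      split_ifs with hsv
      · have a1 := hf.1 (n : ℕ)
        have a2 := hf.1 ((n : ℕ) - (h : ℕ))
        have a3 := abs_sub (f (n : ℕ)) (f ((n : ℕ) - (h : ℕ)))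
        linarith
      · obtain ⟨j, -, hj⟩ := coal hdm k 0 r _ hsv
        have e : (3 : ℤ) ^ 0 * (n : ℕ) + d * r = (n : ℕ) - (h : ℕ) := by
          rw [hdr]; ring
        rw [e] at hj
        rw [hf.2 j _ _ hj ⟨-r, by rw [mul_neg, hdr]; ring⟩, sub_self, abs_zero]
        norm_num
    refine (sum_le_sum hb).trans ?_
    rw [← mul_sum]
    rw [hV] at hsurv
    have : 8 * (N : ℝ) * 1 * q step (0, 0) k (0, r) ≤ 8 * N * 1 * (ε / 32) :=
      mul_le_mul_of_nonneg_left hqq (by positivity)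
    linarith
  have s2 : ∑ n ∈ Icc 1 N, (f ((n : ℕ) - (h : ℕ)) : ℂ) * ee α (n : ℕ)
      = ∑ n ∈ Icc 1 N, (fun x : ℤ => (f x : ℂ) * ee α (x + h)) ((n : ℕ) - (h : ℕ)) := by
    apply sum_congr rfl
    intro n _
    simp
  have s3 := transl (fun x : ℤ => (f x : ℂ) * ee α (x + h)) (fun x => by
    rw [norm_mul, ee_norm, mul_one, Complex.norm_real, Real.norm_eq_abs]; exact hf.1 x) N h
  rw [← s2] at s3
  have s4 : ∑ n ∈ Icc 1 N, (fun x : ℤ => (f x : ℂ) * ee α (x + h)) (n : ℕ) = EE f N α * ee α h := by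
    unfold EE
    rw [sum_mul]
    apply sum_congr rfl
    intro n _
    simp only
    rw [ee_add]
    ring
  rw [s4] at s3
  have s5 : ‖EE f N α * (1 - ee α h)‖ ≤ ε * N := by
    have e : EE f N α * (1 - ee α h) = (EE f N α - ∑ n ∈ Icc 1 N, (f ((n : ℕ) - (h : ℕ)) : ℂ) * ee α (n : ℕ))
        - (EE f N α * ee α h - ∑ n ∈ Icc 1 N, (f ((n : ℕ) - (h : ℕ)) : ℂ) * ee α (n : ℕ)) := by ring
    rw [e]
    refine (norm_sub_le _ _).trans ?_
    have : 2 * (h : ℝ) ≤ ε / 8 * N := by linarith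
    have hN0 : 0 ≤ ε * N := by positivity
    linarith
  have s6 : 1 ≤ ‖1 - ee α h‖ := by
    have h1 : (1 - ee α h).re = 1 - Real.cos (2 * Real.pi * α * (h : ℝ)) := by
      unfold ee
      rw [Complex.sub_re, Complex.one_re, Complex.exp_ofReal_mul_I_re]
      simp
    have h2 : Real.cos (2 * Real.pi * α * (h : ℝ)) ≤ 0 := by
      apply Real.cos_nonpos_of_pi_div_two_le_of_le
      · have := mul_le_mul_of_nonneg_left hah1 (by positivity : 0 ≤ 2 * Real.pi)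
        linarith
      · have := mul_le_mul_of_nonneg_left hah2 (by positivity : 0 ≤ 2 * Real.pi)
        linarith
    have h3 := Complex.abs_re_le_norm (1 - ee α h)
    rw [h1] at h3
    have h4 := le_abs_self (1 - Real.cos (2 * Real.pi * α * (h : ℝ)))
    linarith
  rw [norm_mul] at s5
  have h0 := norm_nonneg (EE f N α)
  nlinarith

/-- MIDDLE frequencies, complex form. -/
theorem mid' {d : ℤ} (hd : Odd d) (hd3 : IsCoprime d 3) {ε : ℝ} (hε : 0 < ε) (hε1 : ε ≤ 1) :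
    ∃ η1 : ℝ, 0 < η1 ∧ η1 ≤ 1 / 2 ∧ ∀ η : ℝ, 0 < η → η ≤ η1 → ∃ C : ℝ, 1 ≤ C ∧ ∃ N0 : ℕ, 1 ≤ N0 ∧
      ∀ N : ℕ, N0 ≤ N → ∀ α : ℝ, C ≤ α * N → α * (N : ℝ) ^ η ≤ 1 → ∀ f ∈ SameD d, ‖EE f N α‖ ≤ ε * N := by
  obtain ⟨η1, h1, h2, h⟩ := mid hd hd3 (show 0 < ε / 2 by positivity) (by linarith)
  refine ⟨η1, h1, h2, fun η h3 h4 => ?_⟩
  obtain ⟨C, hC, N0, hN0, h5⟩ := h η h3 h4
  refine ⟨C, hC, N0, hN0, fun N hN α hα1 hα2 f hf => ?_⟩
  have a1 := h5 N hN α 0 hα1 hα2 f hf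
  have a2 := h5 N hN α (-(Real.pi / 2)) hα1 hα2 f hf
  have e : EE f N α = ((∑ n ∈ Icc 1 N, f (n : ℕ) * Real.cos (2 * Real.pi * α * (n : ℕ) + 0) : ℝ) : ℂ)
      + ((∑ n ∈ Icc 1 N, f (n : ℕ) * Real.cos (2 * Real.pi * α * (n : ℕ) + (-(Real.pi / 2))) : ℝ) : ℂ) * Complex.I := by
    unfold EE
    push_cast
    rw [sum_mul, ← sum_add_distrib]
    apply sum_congr rfl
    intro n _
    rw [ee_cos]
    push_cast
    ring
  rw [e]
  refine (norm_add_le _ _).trans ?_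
  rw [norm_mul, Complex.norm_I, mul_one, Complex.norm_real, Complex.norm_real, Real.norm_eq_abs, Real.norm_eq_abs]
  linarith


/-- frequencies in the interval around `0` -/
theorem near {d : ℤ} (hd : Odd d) (hd3 : IsCoprime d 3) {ε : ℝ} (hε : 0 < ε) (hε1 : ε ≤ 1) :
    ∃ C : ℝ, 1 ≤ C ∧ ∃ N0 : ℕ, 1 ≤ N0 ∧ ∀ N : ℕ, N0 ≤ N → ∀ α : ℝ, C ≤ |α| * N →
      |α| * (d.natAbs : ℝ) ≤ 1 / 2 → ∀ f ∈ SameD d, ‖EE f N α‖ ≤ ε * N := by
  obtain ⟨η2, hη2, hη22, N2, hN2, h2⟩ := large hd hε hε1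
  obtain ⟨η1, hη1, hη11, h1⟩ := mid' hd hd3 hε hε1
  obtain ⟨C, hC, N1, hN1, h1'⟩ := h1 (min η1 η2) (lt_min hη1 hη2) (min_le_left _ _)
  refine ⟨C, hC, N1 + N2, by omega, ?_⟩
  intro N hN α hα hαd f hf
  have hNR : (1 : ℝ) ≤ N := by
    have : 1 ≤ N := by omega
    exact_mod_cast this
  have hEE : ‖EE f N α‖ = ‖EE f N |α|‖ := by
    rcases abs_choice α with h | h
    · rw [h]
    · rw [h, EE_neg]
  rw [hEE]
  set a := |α| with ha
  have ha0 : 0 < a := by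
    by_contra hcon
    push Not at hcon
    nlinarith
  rcases le_or_gt (a * (N : ℝ) ^ (min η1 η2)) 1 with hc | hc
  · exact h1' N (by omega) a hα hc f hf
  · apply h2 N (by omega) a ha0 hαd _ f hf
    refine hc.le.trans ?_
    apply mul_le_mul_of_nonneg_left _ ha0.le
    exact Real.rpow_le_rpow_of_exponent_le hNR (min_le_right _ _)

/-- real and imaginary part of the character of frequency `b / D` -/
noncomputable def chc (D : ℕ) (b : ℤ) (x : ℤ) : ℝ := Real.cos (2 * Real.pi * ((b : ℝ) / D) * x)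
noncomputable def chs (D : ℕ) (b : ℤ) (x : ℤ) : ℝ := Real.sin (2 * Real.pi * ((b : ℝ) / D) * x)

theorem ch_arg {D : ℕ} (hD : 1 ≤ D) (b : ℤ) {x y : ℤ} (h : (D : ℤ) ∣ x - y) :
    ∃ n : ℤ, 2 * Real.pi * ((b : ℝ) / D) * x = 2 * Real.pi * ((b : ℝ) / D) * y + n * (2 * Real.pi) := by
  obtain ⟨t, ht⟩ := h
  refine ⟨b * t, ?_⟩
  have hD0 : (D : ℝ) ≠ 0 := by
    have : D ≠ 0 := by omega
    exact_mod_cast this
  have e : (x : ℝ) = y + D * t := by
    have : x = y + D * t := by linarith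
    rw [this]; push_cast; ring
  rw [e]
  push_cast
  field_simp

theorem chc_periodic {D : ℕ} (hD : 1 ≤ D) (b : ℤ) {x y : ℤ} (h : (D : ℤ) ∣ x - y) : chc D b x = chc D b y := by
  obtain ⟨n, hn⟩ := ch_arg hD b h
  unfold chc
  rw [hn, Real.cos_add_int_mul_two_pi]

theorem chs_periodic {D : ℕ} (hD : 1 ≤ D) (b : ℤ) {x y : ℤ} (h : (D : ℤ) ∣ x - y) : chs D b x = chs D b y := by
  obtain ⟨n, hn⟩ := ch_arg hD b h
  unfold chs
  rw [hn, Real.sin_add_int_mul_two_pi]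

theorem ee_split (D : ℕ) (b : ℤ) (θ : ℝ) (x : ℤ) :
    ee ((b : ℝ) / D + θ) x = ((chc D b x : ℝ) : ℂ) * ee θ x + ((chs D b x : ℝ) : ℂ) * ee θ x * Complex.I := by
  have e : ee ((b : ℝ) / D + θ) x = ee ((b : ℝ) / D) x * ee θ x := by
    unfold ee
    rw [← Complex.exp_add]
    congr 1
    push_cast
    ring
  have e2 : ee ((b : ℝ) / D) x = ((chc D b x : ℝ) : ℂ) + ((chs D b x : ℝ) : ℂ) * Complex.I := by
    unfold ee chc chs
    rw [Complex.exp_mul_I, Complex.ofReal_cos, Complex.ofReal_sin]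
  rw [e, e2]
  ring

theorem EE_split (f : ℤ → ℝ) (N D : ℕ) (b : ℤ) (θ : ℝ) :
    EE f N ((b : ℝ) / D + θ) = EE (fun x => f x * chc D b x) N θ + EE (fun x => f x * chs D b x) N θ * Complex.I := by
  unfold EE
  rw [sum_mul, ← sum_add_distrib]
  apply sum_congr rfl
  intro n _
  rw [ee_split]
  push_cast
  ring

theorem ch_mem {d : ℤ} (hd : Odd d) {f : ℤ → ℝ} (hf : f ∈ SameD d) (b : ℤ) :
    (fun x => f x * chc d.natAbs b x) ∈ SameD d ∧ (fun x => f x * chs d.natAbs b x) ∈ SameD d := by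
  have hD1N : 1 ≤ d.natAbs := by
    obtain ⟨t, ht⟩ := hd; omega
  constructor
  · apply sameD_mul hf
    · intro x; exact Real.abs_cos_le_one _
    · intro x y h
      exact chc_periodic hD1N b (Int.natAbs_dvd.2 h)
  · apply sameD_mul hf
    · intro x; exact Real.abs_sin_le_one _
    · intro x y h
      exact chs_periodic hD1N b (Int.natAbs_dvd.2 h)

/-- every frequency is close to a multiple of `1 / d` -/
theorem split_freq {D : ℕ} (hD : 1 ≤ D) (α : ℝ) : ∃ θ : ℝ, α = (round (α * D) : ℝ) / D + θ ∧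
    |θ| * D = |α * D - round (α * D)| ∧ |θ| * D ≤ 1 / 2 := by
  have hD0 : (0 : ℝ) < D := by exact_mod_cast hD
  refine ⟨(α * D - round (α * D)) / D, by field_simp; ring, ?_, ?_⟩
  · rw [abs_div, abs_of_pos hD0]
    field_simp
  · rw [abs_div, abs_of_pos hD0, div_mul_cancel₀ _ hD0.ne']
    exact abs_sub_round _

/-- FOURIER UNIFORMITY away from the multiples of `1 / d` -/
theorem fourier {d : ℤ} (hd : Odd d) (hd3 : IsCoprime d 3) {ε : ℝ} (hε : 0 < ε) (hε1 : ε ≤ 1) :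
    ∃ C : ℝ, 1 ≤ C ∧ ∃ N0 : ℕ, 1 ≤ N0 ∧ ∀ N : ℕ, N0 ≤ N → ∀ α : ℝ,
      C ≤ |α * (d.natAbs : ℝ) - round (α * (d.natAbs : ℝ))| * N →
      ∀ f ∈ SameD d, ‖EE f N α‖ ≤ ε * N := by
  obtain ⟨C, hC, N0, hN0, h⟩ := near hd hd3 (show 0 < ε / 2 by positivity) (by linarith)
  have hD1N : 1 ≤ d.natAbs := by
    obtain ⟨t, ht⟩ := hd; omega
  have hD1 : (1 : ℝ) ≤ (d.natAbs : ℝ) := by exact_mod_cast hD1N
  refine ⟨C * d.natAbs, one_le_mul_of_one_le_of_one_le hC hD1, N0, hN0, ?_⟩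
  intro N hN α hα f hf
  obtain ⟨θ, h1, h2, h3⟩ := split_freq hD1N α
  have hθ : C ≤ |θ| * N := by
    rw [← h2] at hα
    have : C * (d.natAbs : ℝ) ≤ (|θ| * N) * d.natAbs := by linarith
    exact le_of_mul_le_mul_right this (by linarith)
  obtain ⟨m1, m2⟩ := ch_mem hd hf (round (α * (d.natAbs : ℝ)))
  have a1 := h N hN θ hθ h3 _ m1
  have a2 := h N hN θ hθ h3 _ m2
  rw [h1, EE_split]
  refine (norm_add_le _ _).trans ?_
  rw [norm_mul, Complex.norm_I, mul_one]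
  linarith

end Pool.Agent.W36.FD
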