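import Mathlib
import Pool.Agent.W41.Dens
import Pool.Agent.Results.MP_7f88e4_nt.ResidueClasses

/-! Uniform convergence to the densities of the invariant sets in the classes modulo `d`. -/

set_option autoImplicit false

namespace Pool.Agent.W36.FD

open Finset Filter Topology Pool.Agent.H499R2.ND Pool.Agent.W41

open Classical in
/-- number of `m ≤ N`, `m ≥ 1`, with `s m ∈ S`, `s m ≡ c` modulo `D` -/
noncomputable def cA (s : ℤ) (S : Set ℤ) (D : ℕ) (c : ℤ) (N : ℕ) : ℕ :=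
  ((Icc 1 N).filter (fun m : ℕ => s * (m : ℤ) ∈ S ∧ s * (m : ℤ) ≡ c [ZMOD D])).card

theorem cA_ncard {s : ℤ} (hs : s = 1 ∨ s = -1) (S : Set ℤ) (D : ℕ) (c : ℤ) (N : ℕ) :
    {n : ℤ | 0 < s * n ∧ s * n ≤ N ∧ n ∈ S ∧ n ≡ c [ZMOD D]}.ncard = cA s S D c N := by
  classical
  have e : {n : ℤ | 0 < s * n ∧ s * n ≤ N ∧ n ∈ S ∧ n ≡ c [ZMOD D]} =
      (((Icc 1 N).filter (fun m : ℕ => s * (m : ℤ) ∈ S ∧ s * (m : ℤ) ≡ c [ZMOD D])).image
        (fun m : ℕ => s * (m : ℤ)) : Finset ℤ) := by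
    ext n
    simp only [Set.mem_ofPred_eq, coe_image, coe_filter, Set.mem_image, mem_Icc]
    constructor
    · rintro ⟨h1, h2, h3, h4⟩
      refine ⟨(s * n).toNat, ⟨⟨by omega, by omega⟩, ?_, ?_⟩, ?_⟩
      · rw [Int.toNat_of_nonneg h1.le, s_mul hs]; exact h3
      · rw [Int.toNat_of_nonneg h1.le, s_mul hs]; exact h4
      · rw [Int.toNat_of_nonneg h1.le, s_mul hs]
    · rintro ⟨m, ⟨⟨h1, h2⟩, h3, h4⟩, rfl⟩
      rw [s_mul hs]
      exact ⟨by exact_mod_cast h1, by exact_mod_cast h2, h3, h4⟩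
  rw [e, Set.ncard_coe_finset, card_image_of_injective]
  · rfl
  · intro a b hab
    have h1 : s * (a : ℤ) = s * (b : ℤ) := hab
    have h2 := congrArg (fun x => s * x) h1
    simp only [s_mul hs] at h2
    exact_mod_cast h2

theorem cA_compl (s : ℤ) (S : Set ℤ) (D : ℕ) (c : ℤ) (N : ℕ) :
    cA s S D c N + cA s Sᶜ D c N = cA s Set.univ D c N := by
  classical
  unfold cA
  have := card_filter_add_card_filter_not (s := (Icc 1 N).filter (fun m : ℕ => s * (m : ℤ) ≡ c [ZMOD D]))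
    (fun m : ℕ => s * (m : ℤ) ∈ S)
  rw [filter_filter, filter_filter] at this
  refine Eq.trans (congrArg₂ (· + ·) ?_ ?_) (this.trans ?_)
  · congr 1
    ext m; simp only [mem_filter]; tauto
  · congr 1
    ext m; simp only [mem_filter, Set.mem_compl_iff]; tauto
  · congr 1
    ext m; simp only [mem_filter, Set.mem_univ]; tauto

open Classical in
/-- sum of `f` over the labels in `F` which belong to `S` -/
noncomputable def sF {d s : ℤ} (F : Finset {a : ℤ // IsRp d s a}) (S : Set ℤ) (f : ℤ → ℝ) : ℝ :=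
  ∑ a ∈ F.filter (fun a : {a : ℤ // IsRp d s a} => (a : ℤ) ∈ S), f a

theorem sF_compl {d s : ℤ} (F : Finset {a : ℤ // IsRp d s a}) (S : Set ℤ) (f : ℤ → ℝ) :
    sF F S f + sF F Sᶜ f = ∑ a ∈ F, f a := by
  classical
  unfold sF
  rw [← sum_filter_add_sum_filter_not F (fun a : {a : ℤ // IsRp d s a} => (a : ℤ) ∈ S) (fun a => f a)]
  congr 1
  apply sum_congr _ fun _ _ => rfl
  ext a; simp only [mem_filter, Set.mem_compl_iff]

open Classical in
/-- classes contained in an invariant set -/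
theorem cA_classes {d s : ℤ} (hs : s = 1 ∨ s = -1) {S : Set ℤ} (hS : Inv d S) (D : ℕ) (c : ℤ)
    (F : Finset {a : ℤ // IsRp d s a}) (N : ℕ) :
    sF F S (fun a => (cA s (Mg (Td d) a) D c N : ℝ)) ≤ cA s S D c N := by
  unfold sF
  have key : ∑ a ∈ F.filter (fun a : {a : ℤ // IsRp d s a} => (a : ℤ) ∈ S), cA s (Mg (Td d) (a : ℤ)) D c N
      ≤ cA s S D c N := by
    unfold cA
    rw [← card_biUnion]
    · apply card_le_card
      intro m hm
      rw [mem_biUnion] at hm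
      obtain ⟨a, ha, hm⟩ := hm
      rw [mem_filter] at ha hm ⊢
      exact ⟨hm.1, (inv_class hS hm.2.1).2 ha.2, hm.2.2⟩
    · intro a ha b hb hab
      rw [Function.onFun, disjoint_left]
      intro m h1 h2
      rw [mem_filter] at h1 h2
      exact hab (Subtype.ext (rep_unique hs a.2 b.2 (Mg_trans (Mg_symm h1.2.1) h2.2.1)))
  simp only
  exact_mod_cast key

open Classical in
/-- splitting into residue classes -/
theorem cA_sum (s : ℤ) (S : Set ℤ) {D : ℕ} (hD : 1 ≤ D) (N : ℕ) :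
    ∑ c ∈ range D, (cA s S D (c : ℤ) N : ℝ) = cF s S N := by
  have key : ∑ c ∈ range D, cA s S D (c : ℤ) N = cF s S N := by
    unfold cA cF
    rw [← card_biUnion]
    · congr 1
      ext m
      simp only [mem_biUnion, mem_filter, mem_range]
      constructor
      · rintro ⟨c, -, h1, h2, -⟩; exact ⟨h1, h2⟩
      · rintro ⟨h1, h2⟩
        have hD0 : (D : ℤ) ≠ 0 := by omega
        refine ⟨((s * (m : ℤ)) % D).toNat, ?_, h1, h2, ?_⟩
        · have h3 := Int.emod_lt_of_pos (s * (m : ℤ)) (by omega : (0 : ℤ) < D)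
          have h4 := Int.emod_nonneg (s * (m : ℤ)) hD0
          omega
        · rw [Int.toNat_of_nonneg (Int.emod_nonneg _ hD0)]
          exact (Int.mod_modEq _ _).symm
    · intro a ha b hb hab
      rw [Function.onFun, disjoint_left]
      intro m h1 h2
      rw [mem_filter] at h1 h2
      apply hab
      have h3 : (a : ℤ) ≡ b [ZMOD D] := h1.2.2.symm.trans h2.2.2
      have ha' : a < D := mem_range.1 ha
      have hb' : b < D := mem_range.1 hb
      have h4 : (a : ℤ) % D = (b : ℤ) % D := h3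
      rw [Int.emod_eq_of_lt (by omega) (by omega), Int.emod_eq_of_lt (by omega) (by omega)] at h4
      exact_mod_cast h4
  exact_mod_cast key

/-- `δ` gives the densities of `S` in the classes modulo `D` -/
def DD (s : ℤ) (S : Set ℤ) (D : ℕ) (δ : ℤ → ℝ) : Prop :=
  ∀ c : ℤ, Tendsto (fun N : ℕ => (cA s S D c N : ℝ) / N) atTop (𝓝 (δ c))

theorem DD_sum {s : ℤ} {S : Set ℤ} {D : ℕ} (hD : 1 ≤ D) {δ : ℤ → ℝ} (h : DD s S D δ) {l : ℝ}
    (hs : s = 1 ∨ s = -1) (hl : HD s S l) : ∑ c ∈ range D, δ (c : ℤ) = l := by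
  have h1 : Tendsto (fun N : ℕ => ∑ c ∈ range D, (cA s S D (c : ℤ) N : ℝ) / N) atTop (𝓝 (∑ c ∈ range D, δ (c : ℤ))) :=
    tendsto_finsetSum _ fun c _ => h c
  refine tendsto_nhds_unique h1 ((cF_tendsto hs hl).congr fun N => ?_)
  rw [← sum_div, cA_sum s S hD]

/-- existence of the densities modulo `d`, from the starting files -/
theorem exists_DD {d : ℤ} (hd : d % 6 = 1 ∨ d % 6 = 5) {s : ℤ} (hs : s = 1 ∨ s = -1) {S : Set ℤ} (hS : Inv d S) :
    ∃ δ : ℤ → ℝ, DD s S d.natAbs δ ∧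
      (∀ a b : ℤ, Pool.Agent.Results.MP_7f88e4_nt.ResidueClasses.Rel d a b → δ a = δ b) ∧
      (∀ a x : ℤ, x ∈ S → 0 < s * x → ¬ (3 : ℤ) ∣ x →
        Pool.Agent.Results.MP_7f88e4_nt.ResidueClasses.Rel d a x → 0 < δ a) := by
  have hD1 : 1 ≤ d.natAbs := by omega
  have hS' : ∀ x, x ∈ S ↔ Pool.Agent.Results.MP_7f88e4_nt.ResidueClasses.T d x ∈ S := hS
  obtain ⟨δ, h1, h2, h3⟩ := Pool.Agent.Results.MP_7f88e4_nt.ResidueClasses.main hd hS' hs d.natAbs hD1
  have hg : ((Int.gcd (d.natAbs : ℤ) d : ℕ) : ℤ) = (d.natAbs : ℤ) := by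
    have : Int.gcd (d.natAbs : ℤ) d = d.natAbs := by
      rw [Int.gcd_eq_natAbs, Int.natAbs_natCast, Nat.gcd_self]
    rw [this]
  have hrel : ∀ a b : ℤ, Pool.Agent.Results.MP_7f88e4_nt.ResidueClasses.Rel d a b →
      Pool.Agent.Results.MP_7f88e4_nt.ResidueClasses.Rel (Int.gcd (d.natAbs : ℤ) d) a b := by
    rintro a b ⟨i, j, h⟩
    refine ⟨i, j, ?_⟩
    rw [hg]
    rw [Int.modEq_iff_dvd] at h ⊢
    exact Int.natAbs_dvd.2 h
  refine ⟨δ, fun c => ?_, fun a b hab => h2 a b (hrel a b hab), fun a x hx hx0 hx3 hax => h3 a x hx hx0 hx3 (hrel a x hax)⟩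
  refine (h1 c).congr fun N => ?_
  rw [cA_ncard hs]

theorem DD_nonneg {s : ℤ} {S : Set ℤ} {D : ℕ} {δ : ℤ → ℝ} (h : DD s S D δ) (c : ℤ) : 0 ≤ δ c :=
  ge_of_tendsto' (h c) fun N => by positivity

theorem cA_le (s : ℤ) (S : Set ℤ) (D : ℕ) (c : ℤ) (N : ℕ) : cA s S D c N ≤ N := by
  classical
  unfold cA
  refine (card_filter_le _ _).trans ?_
  rw [Nat.card_Icc, Nat.add_sub_cancel]

/-- UNIFORM CONVERGENCE of the counting functions of all invariant sets in the classes modulo `d`. -/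
theorem unif_class {d : ℤ} (hd : d % 6 = 1 ∨ d % 6 = 5) {s : ℤ} (hs : s = 1 ∨ s = -1) {ε : ℝ} (hε : 0 < ε) :
    ∃ N0 : ℕ, 1 ≤ N0 ∧ ∀ S : Set ℤ, Inv d S → ∀ δ : ℤ → ℝ, DD s S d.natAbs δ → ∀ c : ℕ, c < d.natAbs →
      ∀ N : ℕ, N0 ≤ N → |(cA s S d.natAbs (c : ℤ) N : ℝ) - δ (c : ℤ) * N| ≤ ε * N := by
  classical
  have hodd : Odd d := by rw [Int.odd_iff]; omega
  have hd3 : ¬ (3 : ℤ) ∣ d := by omega
  set D : ℕ := d.natAbs with hDdef
  have hD1 : 1 ≤ D := by omega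
  have hDR : (1 : ℝ) ≤ D := by exact_mod_cast hD1
  obtain ⟨δc, h1, -, h3, h4⟩ := structure_d (d := d) hodd hd3 hs
  have hMg : ∀ a : ℤ, ∃ δ : ℤ → ℝ, DD s (Mg (Td d) a) D δ := fun a => by
    obtain ⟨δ, h, -⟩ := exists_DD hd hs (Mg_inv d a)
    exact ⟨δ, h⟩
  choose δa hδa using hMg
  have hsum : ∀ a : ℤ, ∑ c ∈ range D, δa a (c : ℤ) = δc a := fun a => DD_sum hD1 (hδa a) hs (h1 a).2
  set η : ℝ := ε / 4 with hη
  have hη0 : 0 < η := by positivity
  obtain ⟨F, hF⟩ : ∃ F : Finset {a : ℤ // IsRp d s a}, 1 - η < ∑ a ∈ F, δc a := by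
    have := (h4.eventually (lt_mem_nhds (show 1 - η < 1 by linarith))).exists
    exact this
  have hN : ∀ a : {a : ℤ // IsRp d s a}, ∀ c : ℕ, ∃ n : ℕ, ∀ N ≥ n,
      |(cA s (Mg (Td d) (a : ℤ)) D (c : ℤ) N : ℝ) / N - δa a (c : ℤ)| < η / (F.card + 1) := by
    intro a c
    have h5 := Metric.tendsto_atTop.1 (hδa a (c : ℤ)) (η / (F.card + 1)) (by positivity)
    obtain ⟨n, hn⟩ := h5
    exact ⟨n, fun N hN => by simpa [Real.dist_eq] using hn N hN⟩
  choose n hn using hN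
  -- the whole set
  have hUinv : Inv d (Set.univ : Set ℤ) := fun x => by simp
  obtain ⟨δU, hU, -⟩ := exists_DD hd hs hUinv
  have hNU : ∀ c : ℕ, ∃ n : ℕ, ∀ N ≥ n, |(cA s Set.univ D (c : ℤ) N : ℝ) / N - δU (c : ℤ)| < η := by
    intro c
    obtain ⟨n, hn⟩ := Metric.tendsto_atTop.1 (hU (c : ℤ)) η hη0
    exact ⟨n, fun N hN => by simpa [Real.dist_eq] using hn N hN⟩
  choose nU hnU using hNU
  refine ⟨F.sup (fun a => (range D).sup (fun c => n a c)) + (range D).sup nU + 1, by omega, fun S hS δ hδ c hc N hNN => ?_⟩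
  have hN0 : (0 : ℝ) < N := by exact_mod_cast (by omega : 0 < N)
  -- lower bound of the densities
  have low : ∀ S : Set ℤ, Inv d S → ∀ δ : ℤ → ℝ, DD s S D δ → ∀ c : ℤ, sF F S (fun a => δa a c) ≤ δ c := by
    intro S hS δ hδ c
    have t1 : Tendsto (fun N : ℕ => sF F S (fun a => (cA s (Mg (Td d) a) D c N : ℝ)) / N) atTop
        (𝓝 (sF F S (fun a => δa a c))) := by
      unfold sF
      have := tendsto_finsetSum (F.filter (fun a : {a : ℤ // IsRp d s a} => (a : ℤ) ∈ S)) (fun a _ => hδa a c)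
      refine this.congr fun N => ?_
      rw [sum_div]
    refine le_of_tendsto_of_tendsto t1 (hδ c) (Eventually.of_forall fun N => ?_)
    exact div_le_div_of_nonneg_right (cA_classes hs hS D c F N) (Nat.cast_nonneg _)
  -- the total deficiency
  have defi : ∀ S : Set ℤ, Inv d S → ∀ δ : ℤ → ℝ, DD s S D δ → ∀ c : ℕ, c < D →
      δ (c : ℤ) - η ≤ sF F S (fun a => δa a (c : ℤ)) := by
    intro S hS δ hδ c hc
    have hSc : Inv d Sᶜ := hS.compl
    obtain ⟨δ', hδ', -⟩ := exists_DD hd hs hSc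
    obtain ⟨l, -, -, hl⟩ := dens_side hodd (cop_of_not_dvd hd3) hs hS
    obtain ⟨l', -, -, hl'⟩ := dens_side hodd (cop_of_not_dvd hd3) hs hSc
    have e1 := DD_sum hD1 hδ hs hl
    have e2 := DD_sum hD1 hδ' hs hl'
    have e3 := HD_compl hl hl'
    have e4 : ∑ c ∈ range D, (sF F S (fun a => δa a (c : ℤ)) + sF F Sᶜ (fun a => δa a (c : ℤ))) = ∑ a ∈ F, δc a := by
      have : ∀ c ∈ range D, sF F S (fun a => δa a (c : ℤ)) + sF F Sᶜ (fun a => δa a (c : ℤ))
          = ∑ a ∈ F, δa a (c : ℤ) := fun c _ => sF_compl F S _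
      rw [sum_congr rfl this, sum_comm]
      exact sum_congr rfl fun a _ => hsum a
    have e5 : ∑ c ∈ range D, ((δ (c : ℤ) - sF F S (fun a => δa a (c : ℤ)))
        + (δ' (c : ℤ) - sF F Sᶜ (fun a => δa a (c : ℤ)))) ≤ η := by
      have : ∑ c ∈ range D, ((δ (c : ℤ) - sF F S (fun a => δa a (c : ℤ)))
        + (δ' (c : ℤ) - sF F Sᶜ (fun a => δa a (c : ℤ))))
        = (∑ c ∈ range D, δ (c : ℤ) + ∑ c ∈ range D, δ' (c : ℤ)) - ∑ a ∈ F, δc a := by
        rw [← e4, ← sum_add_distrib, ← sum_sub_distrib]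
        apply sum_congr rfl
        intro c _
        ring
      rw [this]
      linarith
    have e6 : ∀ c ∈ range D, 0 ≤ ((δ (c : ℤ) - sF F S (fun a => δa a (c : ℤ)))
        + (δ' (c : ℤ) - sF F Sᶜ (fun a => δa a (c : ℤ)))) := by
      intro c _
      have := low S hS δ hδ (c : ℤ)
      have := low Sᶜ hSc δ' hδ' (c : ℤ)
      linarith
    have e7 := single_le_sum e6 (mem_range.2 hc)
    have e8 := low Sᶜ hSc δ' hδ' (c : ℤ)
    linarith
  -- lower bound for every invariant set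
  have key : ∀ S : Set ℤ, Inv d S → ∀ δ : ℤ → ℝ, DD s S D δ → ∀ c : ℕ, c < D →
      (δ (c : ℤ) - 2 * η) * N ≤ cA s S D (c : ℤ) N := by
    intro S hS δ hδ c hc
    have l2 := defi S hS δ hδ c hc
    refine le_trans ?_ (cA_classes hs hS D (c : ℤ) F N)
    unfold sF at l2 ⊢
    have l3 : ∑ a ∈ F.filter (fun a : {a : ℤ // IsRp d s a} => (a : ℤ) ∈ S), (δa a (c : ℤ) - η / (F.card + 1)) * N ≤
        ∑ a ∈ F.filter (fun a : {a : ℤ // IsRp d s a} => (a : ℤ) ∈ S), (cA s (Mg (Td d) (a : ℤ)) D (c : ℤ) N : ℝ) := by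
      apply sum_le_sum
      intro a ha
      have hna : n a c ≤ N := by
        have h5 : (range D).sup (fun c => n a c) ≤ F.sup (fun a => (range D).sup (fun c => n a c)) :=
          le_sup (f := fun a => (range D).sup (fun c => n a c)) (mem_filter.1 ha).1
        have h6 : n a c ≤ (range D).sup (fun c => n a c) := le_sup (f := fun c => n a c) (mem_range.2 hc)
        omega
      have := (abs_lt.1 (hn a c N hna)).1
      have h6 : δa a (c : ℤ) - η / (F.card + 1) ≤ (cA s (Mg (Td d) (a : ℤ)) D (c : ℤ) N : ℝ) / N := by linarith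
      rwa [le_div_iff₀ hN0] at h6
    refine le_trans ?_ l3
    rw [← sum_mul, sum_sub_distrib, sum_const, nsmul_eq_mul]
    apply mul_le_mul_of_nonneg_right _ hN0.le
    have h7 : ((F.filter (fun a : {a : ℤ // IsRp d s a} => (a : ℤ) ∈ S)).card : ℝ) ≤ F.card := by
      exact_mod_cast card_filter_le _ _
    have h8 : ((F.filter (fun a : {a : ℤ // IsRp d s a} => (a : ℤ) ∈ S)).card : ℝ) * (η / (F.card + 1)) ≤ η := by
      rw [mul_div_assoc', div_le_iff₀ (by positivity)]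
      nlinarith
    linarith
  have hSc : Inv d Sᶜ := hS.compl
  obtain ⟨δ', hδ', -⟩ := exists_DD hd hs hSc
  have k1 := key S hS δ hδ c hc
  have k2 := key _ hSc δ' hδ' c hc
  have k3 : (cA s S D (c : ℤ) N : ℝ) + cA s Sᶜ D (c : ℤ) N = cA s Set.univ D (c : ℤ) N := by
    exact_mod_cast cA_compl s S D (c : ℤ) N
  have k4 : δ (c : ℤ) + δ' (c : ℤ) = δU (c : ℤ) := by
    refine tendsto_nhds_unique ((hδ (c : ℤ)).add (hδ' (c : ℤ))) ((hU (c : ℤ)).congr fun N => ?_)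
    rw [← add_div]
    congr 1
    exact_mod_cast (cA_compl s S D (c : ℤ) N).symm
  have hnc : nU c ≤ N := by
    have h6 := le_sup (f := nU) (mem_range.2 hc)
    omega
  have k5 := (abs_lt.1 (hnU c N hnc)).2
  have k6 : (cA s Set.univ D (c : ℤ) N : ℝ) ≤ (δU (c : ℤ) + η) * N := by
    have : (cA s Set.univ D (c : ℤ) N : ℝ) / N ≤ δU (c : ℤ) + η := by linarith
    rwa [div_le_iff₀ hN0] at this
  have hεη : ε = 4 * η := by rw [hη]; ring
  rw [hεη, abs_le]
  have hηN : 0 ≤ η * N := by positivity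
  constructor <;> nlinarith

/-- the multiples of `s` in a class -/
theorem cA_univ {s : ℤ} (hs : s = 1 ∨ s = -1) {D : ℕ} (hD : 1 ≤ D) (c : ℤ) (N : ℕ) :
    |(cA s Set.univ D c N : ℝ) - N / D| ≤ 1 := by
  classical
  have e : cA s Set.univ D c N = ((Ioc (0 : ℤ) N).filter (fun x => x ≡ s * c [ZMOD D])).card := by
    unfold cA
    symm
    apply card_bij' (fun x _ => x.toNat) (fun (m : ℕ) _ => (m : ℤ))
    · intro x hx
      rw [mem_filter, mem_Ioc] at hx
      simp only [mem_filter, mem_Icc]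
      have h1 : ((x.toNat : ℕ) : ℤ) = x := Int.toNat_of_nonneg hx.1.1.le
      refine ⟨⟨by omega, by omega⟩, Set.mem_univ _, ?_⟩
      rw [h1]
      have := hx.2.mul_left s
      rwa [s_mul hs] at this
    · intro m hm
      simp only [mem_filter, mem_Icc] at hm
      rw [mem_filter, mem_Ioc]
      refine ⟨⟨by omega, by omega⟩, ?_⟩
      have := hm.2.2.mul_left s
      rwa [s_mul hs] at this
    · intro x hx
      rw [mem_filter, mem_Ioc] at hx
      exact Int.toNat_of_nonneg hx.1.1.le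
    · intro m _
      simp
  have hD0 : (0 : ℤ) < D := by omega
  have hDR : (0 : ℝ) < D := by exact_mod_cast hD
  have h1 := Int.Ioc_filter_modEq_card (0 : ℤ) (N : ℤ) hD0 (s * c)
  rw [e]
  have h2 : (((Ioc (0 : ℤ) N).filter (fun x => x ≡ s * c [ZMOD D])).card : ℤ) =
      ⌊((N : ℤ) - s * c : ℚ) / (D : ℤ)⌋ - ⌊((0 : ℤ) - s * c : ℚ) / (D : ℤ)⌋ := by
    rw [h1]
    push_cast
    rw [max_eq_left]
    rw [sub_nonneg]
    apply Int.floor_le_floor
    apply div_le_div_of_nonneg_right _ (by positivity)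
    have : (0 : ℚ) ≤ N := Nat.cast_nonneg _
    linarith
  have f1 := Int.floor_le (((N : ℤ) - s * c : ℚ) / (D : ℤ))
  have f2 := Int.lt_floor_add_one (((N : ℤ) - s * c : ℚ) / (D : ℤ))
  have f3 := Int.floor_le (((0 : ℤ) - s * c : ℚ) / (D : ℤ))
  have f4 := Int.lt_floor_add_one (((0 : ℤ) - s * c : ℚ) / (D : ℤ))
  have h3 : (((Ioc (0 : ℤ) N).filter (fun x => x ≡ s * c [ZMOD D])).card : ℚ) =
      (⌊((N : ℤ) - s * c : ℚ) / (D : ℤ)⌋ : ℚ) - (⌊((0 : ℤ) - s * c : ℚ) / (D : ℤ)⌋ : ℚ) := by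
    exact_mod_cast h2
  have e5 : ((N : ℤ) - s * c : ℚ) / (D : ℤ) = (N : ℚ) / D + ((0 : ℤ) - s * c : ℚ) / (D : ℤ) := by
    push_cast
    ring
  have h6 : |(((Ioc (0 : ℤ) N).filter (fun x => x ≡ s * c [ZMOD D])).card : ℚ) - (N : ℚ) / D| ≤ 1 := by
    rw [h3, abs_le]
    constructor <;> linarith
  have h7 : ((|(((Ioc (0 : ℤ) N).filter (fun x => x ≡ s * c [ZMOD D])).card : ℚ) - (N : ℚ) / D| : ℚ) : ℝ) ≤ ((1 : ℚ) : ℝ) := by
    exact_mod_cast h6
  push_cast at h7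
  exact h7

end Pool.Agent.W36.FD
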