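import Pool.Agent.W36.FD.FD4
import Pool.Agent.W36.FD.FD5
import Pool.Agent.W41.FU8

/-! Fourier structure of the invariant sets of the maps with a constant `d`. -/

set_option autoImplicit false

namespace Pool.Agent.W36.FD

open Pool.Agent.H320R2.PD Pool.Agent.H499R2.ND Finset Pool.Agent.H499R2.CO Pool.Agent.W41 Pool.Agent.W41.FU Filter Topology

/-- `φ` is the local density of `S` modulo `d` on the side `s` -/
def IsPhi (d s : ℤ) (S : Set ℤ) (φ : ℤ → ℝ) : Prop :=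
  (∀ x, 0 ≤ φ x ∧ φ x ≤ 1) ∧
  (∀ x y : ℤ, Pool.Agent.Results.MP_7f88e4_nt.ResidueClasses.Rel d x y → φ x = φ y) ∧
  DD s S d.natAbs (fun c => φ c / (d.natAbs : ℝ))

theorem exists_phi {d : ℤ} (hd : d % 6 = 1 ∨ d % 6 = 5) {s : ℤ} (hs : s = 1 ∨ s = -1) {S : Set ℤ} (hS : Inv d S) :
    ∃ φ : ℤ → ℝ, IsPhi d s S φ ∧
      (∀ a x : ℤ, x ∈ S → 0 < s * x → ¬ (3 : ℤ) ∣ x →
        Pool.Agent.Results.MP_7f88e4_nt.ResidueClasses.Rel d a x → 0 < φ a) := by
  obtain ⟨δ, h1, h2, h3⟩ := exists_DD hd hs hS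
  have hD1 : 1 ≤ d.natAbs := by omega
  have hDR : (0 : ℝ) < (d.natAbs : ℝ) := by exact_mod_cast hD1
  refine ⟨fun c => (d.natAbs : ℝ) * δ c, ⟨fun c => ⟨mul_nonneg hDR.le (DD_nonneg h1 c), ?_⟩, ?_, ?_⟩, ?_⟩
  · -- upper bound
    have hle : δ c ≤ 1 / d.natAbs := by
      have t2 : Tendsto (fun N : ℕ => 1 / (d.natAbs : ℝ) + 1 / (N : ℝ)) atTop (𝓝 (1 / (d.natAbs : ℝ) + 0)) :=
        tendsto_const_nhds.add tendsto_one_div_atTop_nhds_zero_nat
      rw [add_zero] at t2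
      refine le_of_tendsto_of_tendsto (h1 c) t2 ?_
      filter_upwards [eventually_ge_atTop 1] with N hN
      have hN0 : (0 : ℝ) < N := by exact_mod_cast hN
      have h4 : (cA s S d.natAbs c N : ℝ) ≤ cA s Set.univ d.natAbs c N := by
        have := cA_compl s S d.natAbs c N
        exact_mod_cast (by omega : cA s S d.natAbs c N ≤ cA s Set.univ d.natAbs c N)
      have h5 := (abs_le.1 (cA_univ hs hD1 c N)).2
      rw [div_le_iff₀ hN0]
      have e : (1 / (d.natAbs : ℝ) + 1 / N) * N = N / d.natAbs + 1 := by field_simp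
      rw [e]
      linarith
    calc (d.natAbs : ℝ) * δ c ≤ d.natAbs * (1 / d.natAbs) := mul_le_mul_of_nonneg_left hle hDR.le
      _ = 1 := by field_simp
  · intro x y hxy
    simp only
    rw [h2 x y hxy]
  · intro c
    have e : (d.natAbs : ℝ) * δ c / d.natAbs = δ c := by field_simp
    simp only
    rw [e]
    exact h1 c
  · intro a x hx hx0 hx3 hax
    exact mul_pos hDR (h3 a x hx hx0 hx3 hax)

/-- the balanced function of an invariant set -/
noncomputable def balD (s : ℤ) (S : Set ℤ) (φ : ℤ → ℝ) (x : ℤ) : ℝ := ind s S x - φ (s * x)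

theorem balD_abs {d s : ℤ} {S : Set ℤ} {φ : ℤ → ℝ} (h : IsPhi d s S φ) (x : ℤ) : |balD s S φ x| ≤ 1 := by
  unfold balD
  have h2 := ind_nonneg s S x
  have h3 := ind_le_one s S x
  obtain ⟨h4, h5⟩ := h.1 (s * x)
  rw [abs_le]
  constructor <;> linarith

theorem rel_of_dvd {d x y : ℤ} (h : d ∣ x - y) : Pool.Agent.Results.MP_7f88e4_nt.ResidueClasses.Rel d x y := by
  refine ⟨0, 0, ?_⟩
  simp only [pow_zero, one_mul]
  exact (Int.modEq_iff_dvd.2 h).symm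

theorem balD_same {d : ℤ} (hd : Odd d) {s : ℤ} (hs : s = 1 ∨ s = -1) {S : Set ℤ} (hS : Inv d S) {φ : ℤ → ℝ}
    (h : IsPhi d s S φ) : balD s S φ ∈ SameD (s * d) := by
  refine ⟨balD_abs h, fun j x y hxy hdv => ?_⟩
  have hi : ∀ x : ℤ, ind s S ((Td (s * d))^[j] x) = ind s S x := by
    intro x
    have e : s * (Td (s * d))^[j] x ∈ S ↔ s * x ∈ S := by
      rw [Td_side hd hs, s_mul hs]
      exact (inv_iter hS j (s * x)).symm
    unfold ind
    by_cases h1 : s * x ∈ S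
    · rw [if_pos h1, if_pos (e.2 h1)]
    · rw [if_neg h1, if_neg (fun h2 => h1 (e.1 h2))]
  have hxy' : (Td (s * d))^[j] x = (Td (s * d))^[j] y := hxy
  unfold balD
  rw [← hi x, ← hi y, hxy', h.2.1 (s * x) (s * y) (rel_of_dvd ?_)]
  rw [← mul_sub]
  rcases hs with rfl | rfl
  · rw [one_mul] at hdv ⊢; exact hdv
  · have : -1 * d ∣ x - y := hdv
    have h2 : d ∣ x - y := by
      have := this
      rw [neg_one_mul] at this
      exact (neg_dvd).1 this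
    exact h2.mul_left _

/-- partial summation -/
theorem psum {g : ℤ → ℝ} {N : ℕ} {B : ℝ} (hB : ∀ n : ℕ, n ≤ N → |∑ m ∈ Icc 1 n, g (m : ℕ)| ≤ B) (θ : ℝ) :
    ‖EE g N θ‖ ≤ B * (1 + 2 * Real.pi * (|θ| * N)) := by
  have hB0 : 0 ≤ B := (abs_nonneg _).trans (hB 0 (Nat.zero_le _))
  rw [abel]
  refine (norm_sub_le _ _).trans ?_
  have e1 : ‖((∑ n ∈ Icc 1 N, g (n : ℕ) : ℝ) : ℂ) * ee θ (N + 1)‖ ≤ B := by
    rw [norm_mul, ee_norm, mul_one, Complex.norm_real, Real.norm_eq_abs]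
    exact hB N le_rfl
  have e2 : ‖∑ n ∈ Icc 1 N, ((∑ m ∈ Icc 1 n, g (m : ℕ) : ℝ) : ℂ) * (ee θ ((n : ℕ) + 1) - ee θ (n : ℕ))‖
      ≤ B * (2 * Real.pi * (|θ| * N)) := by
    refine (norm_sum_le _ _).trans ?_
    have h1 : ∀ n ∈ Icc 1 N, ‖((∑ m ∈ Icc 1 n, g (m : ℕ) : ℝ) : ℂ) * (ee θ ((n : ℕ) + 1) - ee θ (n : ℕ))‖
        ≤ B * (2 * Real.pi * |θ|) := by
      intro n hn
      rw [norm_mul, Complex.norm_real, Real.norm_eq_abs]
      exact mul_le_mul (hB n (mem_Icc.1 hn).2) (ee_diff θ n) (norm_nonneg _) hB0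
    refine (sum_le_sum h1).trans ?_
    rw [sum_const, Nat.card_Icc, Nat.add_sub_cancel, nsmul_eq_mul]
    exact le_of_eq (by ring)
  linarith

/-- splitting of a sum into classes -/
theorem sum_classes {s : ℤ} {D : ℕ} (hD : 1 ≤ D) (F : ℕ → ℝ) (M : ℕ) :
    ∑ n ∈ Icc 1 M, F n = ∑ c ∈ range D, ∑ n ∈ (Icc 1 M).filter (fun n : ℕ => s * (n : ℤ) ≡ (c : ℤ) [ZMOD D]), F n := by
  classical
  have hD0 : (D : ℤ) ≠ 0 := by omega
  rw [← sum_fiberwise_of_maps_to (s := Icc 1 M) (t := range D) (g := fun n : ℕ => ((s * (n : ℤ)) % D).toNat)]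
  · apply sum_congr rfl
    intro c hc
    rw [mem_range] at hc
    apply sum_congr _ fun _ _ => rfl
    ext n
    rw [mem_filter, mem_filter]
    have h1 := Int.emod_nonneg (s * (n : ℤ)) hD0
    have h2 := Int.emod_lt_of_pos (s * (n : ℤ)) (by omega : (0 : ℤ) < D)
    have h3 : (s * (n : ℤ)) ≡ (c : ℤ) [ZMOD D] ↔ (s * (n : ℤ)) % D = c := by
      unfold Int.ModEq
      rw [Int.emod_eq_of_lt (a := (c : ℤ)) (by omega) (by omega)]
    rw [h3]
    constructor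
    · rintro ⟨a1, a2⟩; exact ⟨a1, by omega⟩
    · rintro ⟨a1, a2⟩; exact ⟨a1, by omega⟩
  · intro n _
    rw [mem_range]
    have h1 := Int.emod_nonneg (s * (n : ℤ)) hD0
    have h2 := Int.emod_lt_of_pos (s * (n : ℤ)) (by omega : (0 : ℤ) < D)
    omega

theorem bal_class_sum {d s : ℤ} {S : Set ℤ} {φ : ℤ → ℝ} (h : IsPhi d s S φ) (c : ℤ) (M : ℕ) :
    ∑ n ∈ (Icc 1 M).filter (fun n : ℕ => s * (n : ℤ) ≡ c [ZMOD (d.natAbs : ℕ)]), balD s S φ (n : ℕ)
      = (cA s S d.natAbs c M : ℝ) - φ c * cA s Set.univ d.natAbs c M := by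
  classical
  have e1 : ∀ n ∈ (Icc 1 M).filter (fun n : ℕ => s * (n : ℤ) ≡ c [ZMOD (d.natAbs : ℕ)]), balD s S φ (n : ℕ)
      = ind s S (n : ℕ) - φ c := by
    intro n hn
    rw [mem_filter] at hn
    unfold balD
    congr 1
    apply h.2.1
    apply rel_of_dvd
    have := hn.2.symm.dvd
    exact Int.natAbs_dvd.1 this
  rw [sum_congr rfl e1, sum_sub_distrib, sum_const, nsmul_eq_mul]
  congr 1
  · unfold cA ind
    rw [← sum_filter, sum_const, nsmul_eq_mul, mul_one, filter_filter]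
    congr 2
    ext m
    simp only [mem_filter]
    tauto
  · rw [mul_comm]
    congr 2
    unfold cA
    congr 1
    ext m
    simp only [mem_filter, Set.mem_univ, true_and]

/-- uniform bound of the twisted partial sums -/
theorem twisted {d : ℤ} (hd : d % 6 = 1 ∨ d % 6 = 5) {s : ℤ} (hs : s = 1 ∨ s = -1) {ε : ℝ} (hε : 0 < ε) :
    ∃ B : ℝ, 0 < B ∧ ∀ S : Set ℤ, Inv d S → ∀ φ : ℤ → ℝ, IsPhi d s S φ → ∀ w : ℤ → ℝ, (∀ x, |w x| ≤ 1) →
      (∀ x y : ℤ, d ∣ x - y → w x = w y) → ∀ N M : ℕ, M ≤ N →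
      |∑ n ∈ Icc 1 M, balD s S φ (n : ℕ) * w (n : ℕ)| ≤ ε * N + B := by
  classical
  have hD1 : 1 ≤ d.natAbs := by omega
  obtain ⟨D, hDdef⟩ : ∃ D : ℕ, D = d.natAbs := ⟨_, rfl⟩
  rw [← hDdef] at hD1
  have hDR : (0 : ℝ) < (D : ℝ) := by exact_mod_cast hD1
  obtain ⟨n0, hn0, h⟩ := unif_class hd hs (show 0 < ε / D by positivity)
  rw [← hDdef] at h
  refine ⟨D * (n0 + 1), by positivity, fun S hS φ hφ w hw hwd N M hMN => ?_⟩
  have hdel : DD s S D (fun c => φ c / (D : ℝ)) := by rw [hDdef]; exact hφ.2.2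
  have hcl : ∀ c : ℕ, c < D → |∑ n ∈ (Icc 1 M).filter (fun n : ℕ => s * (n : ℤ) ≡ (c : ℤ) [ZMOD D]), balD s S φ (n : ℕ)|
      ≤ ε / D * N + (n0 + 1) := by
    intro c hc
    have e1 := bal_class_sum hφ (c : ℤ) M
    rw [← hDdef] at e1
    rw [e1]
    obtain ⟨p0, p1⟩ := hφ.1 (c : ℤ)
    have hU := cA_univ hs hD1 (c : ℤ) M
    have hMN' : (M : ℝ) ≤ N := by exact_mod_cast hMN
    rcases le_or_gt n0 M with hM | hM
    · have h2 := h S hS _ hdel c hc M hM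
      have e2 : (cA s S D (c : ℤ) M : ℝ) - φ c * cA s Set.univ D (c : ℤ) M
          = ((cA s S D (c : ℤ) M : ℝ) - φ c / D * M) - φ c * ((cA s Set.univ D (c : ℤ) M : ℝ) - M / D) := by
        field_simp
        ring
      rw [e2]
      refine (abs_sub _ _).trans ?_
      rw [abs_mul, abs_of_nonneg p0]
      have h3 : φ c * |(cA s Set.univ D (c : ℤ) M : ℝ) - M / D| ≤ 1 := by
        have := abs_nonneg ((cA s Set.univ D (c : ℤ) M : ℝ) - M / D)
        nlinarith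
      have h4 : ε / D * M ≤ ε / D * N := mul_le_mul_of_nonneg_left hMN' (by positivity)
      have h5 : (0 : ℝ) ≤ n0 := Nat.cast_nonneg _
      linarith
    · have a1 : (cA s S D (c : ℤ) M : ℝ) ≤ M := by exact_mod_cast cA_le s S D (c : ℤ) M
      have a2 : (cA s Set.univ D (c : ℤ) M : ℝ) ≤ M := by exact_mod_cast cA_le s Set.univ D (c : ℤ) M
      have a3 : (0 : ℝ) ≤ cA s S D (c : ℤ) M := Nat.cast_nonneg _
      have a4 : (0 : ℝ) ≤ cA s Set.univ D (c : ℤ) M := Nat.cast_nonneg _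
      have a5 : φ c * cA s Set.univ D (c : ℤ) M ≤ M := by nlinarith
      have a6 : 0 ≤ φ c * (cA s Set.univ D (c : ℤ) M : ℝ) := by positivity
      have a7 : (M : ℝ) ≤ n0 := by exact_mod_cast hM.le
      have a8 : 0 ≤ ε / D * N := by positivity
      rw [abs_le]
      constructor <;> linarith
  rw [sum_classes (s := s) hD1]
  refine (abs_sum_le_sum_abs _ _).trans ?_
  have hb : ∀ c ∈ range D, |∑ n ∈ (Icc 1 M).filter (fun n : ℕ => s * (n : ℤ) ≡ (c : ℤ) [ZMOD D]),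
      balD s S φ (n : ℕ) * w (n : ℕ)| ≤ ε / D * N + (n0 + 1) := by
    intro c hc
    have e1 : ∀ n ∈ (Icc 1 M).filter (fun n : ℕ => s * (n : ℤ) ≡ (c : ℤ) [ZMOD D]),
        balD s S φ (n : ℕ) * w (n : ℕ) = balD s S φ (n : ℕ) * w (s * c) := by
      intro n hn
      rw [mem_filter] at hn
      congr 1
      apply hwd
      have h2 := hn.2.mul_left s
      rw [s_mul hs, hDdef] at h2
      exact Int.natAbs_dvd.1 h2.symm.dvd
    rw [sum_congr rfl e1, ← sum_mul, abs_mul]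
    have h3 := hcl c (mem_range.1 hc)
    have h4 := hw (s * c)
    have h5 := abs_nonneg (∑ n ∈ (Icc 1 M).filter (fun n : ℕ => s * (n : ℤ) ≡ (c : ℤ) [ZMOD D]), balD s S φ (n : ℕ))
    have h6 := abs_nonneg (w (s * c))
    nlinarith
  refine (sum_le_sum hb).trans ?_
  rw [sum_const, card_range, nsmul_eq_mul]
  apply le_of_eq
  field_simp

/-- FOURIER STRUCTURE of invariant sets. -/
theorem fourier_inv {d : ℤ} (hd : d % 6 = 1 ∨ d % 6 = 5) {s : ℤ} (hs : s = 1 ∨ s = -1) {ε : ℝ} (hε : 0 < ε)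
    (hε1 : ε ≤ 1) : ∃ N0 : ℕ, 1 ≤ N0 ∧
    ∀ S : Set ℤ, Inv d S → ∀ φ : ℤ → ℝ, IsPhi d s S φ → ∀ N : ℕ, N0 ≤ N → ∀ α : ℝ,
      ‖EE (balD s S φ) N α‖ ≤ ε * N := by
  have hodd : Odd d := by rw [Int.odd_iff]; omega
  have hd3 : ¬ (3 : ℤ) ∣ d := by omega
  have hD1 : 1 ≤ d.natAbs := by omega
  have hDR : (1 : ℝ) ≤ (d.natAbs : ℝ) := by exact_mod_cast hD1
  have hnat : (s * d).natAbs = d.natAbs := by
    rw [Int.natAbs_mul]; rcases hs with rfl | rfl <;> simp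
  obtain ⟨C, hC, N1, hN1, h1⟩ := fourier (side_odd hodd hs) (side_cop (cop_of_not_dvd hd3) hs) hε hε1
  rw [hnat] at h1
  set K : ℝ := 1 + 2 * Real.pi * C with hK
  have hKp : 0 < K := by positivity
  obtain ⟨B, hB, h2⟩ := twisted hd hs (show 0 < ε / (4 * K) by positivity)
  obtain ⟨n2, hn2⟩ := exists_nat_ge (4 * K * B / ε)
  refine ⟨N1 + n2, by omega, fun S hS φ hφ N hN α => ?_⟩
  have hN0 : (0 : ℝ) < N := by exact_mod_cast (by omega : 0 < N)
  rcases le_or_gt C (|α * (d.natAbs : ℝ) - round (α * (d.natAbs : ℝ))| * N) with h | h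
  · exact h1 N (by omega) α h _ (balD_same hodd hs hS hφ)
  · obtain ⟨θ, e1, e2, e3⟩ := split_freq hD1 α
    have hθ : |θ| * N ≤ C := by
      rw [← e2] at h
      have h0 : 0 ≤ |θ| * N := by positivity
      nlinarith
    set b : ℤ := round (α * (d.natAbs : ℝ)) with hb
    rw [e1, EE_split]
    have hw1 : ∀ w : ℤ → ℝ, (∀ x, |w x| ≤ 1) → (∀ x y : ℤ, d ∣ x - y → w x = w y) →
        ‖EE (fun x => balD s S φ x * w x) N θ‖ ≤ ε / 2 * N := by
      intro w hw hwd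
      have h3 := psum (g := fun x => balD s S φ x * w x) (N := N) (B := ε / (4 * K) * N + B)
        (fun n hn => h2 S hS φ hφ w hw hwd N n hn) θ
      refine h3.trans ?_
      have h4 : 1 + 2 * Real.pi * (|θ| * N) ≤ K := by
        rw [hK]
        have := mul_le_mul_of_nonneg_left hθ (by positivity : 0 ≤ 2 * Real.pi)
        linarith
      have h5 : (ε / (4 * K) * N + B) * (1 + 2 * Real.pi * (|θ| * N)) ≤ (ε / (4 * K) * N + B) * K :=
        mul_le_mul_of_nonneg_left h4 (by positivity)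
      refine h5.trans ?_
      have h6 : (ε / (4 * K) * N + B) * K = ε / 4 * N + B * K := by field_simp
      rw [h6]
      have h7 : 4 * K * B / ε ≤ N := hn2.trans (by exact_mod_cast (by omega : n2 ≤ N))
      rw [div_le_iff₀ hε] at h7
      linarith
    have a1 := hw1 (chc d.natAbs b) (fun x => Real.abs_cos_le_one _)
      (fun x y hxy => chc_periodic hD1 b (Int.natAbs_dvd.2 hxy))
    have a2 := hw1 (chs d.natAbs b) (fun x => Real.abs_sin_le_one _)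
      (fun x y hxy => chs_periodic hD1 b (Int.natAbs_dvd.2 hxy))
    refine (norm_add_le _ _).trans ?_
    rw [norm_mul, Complex.norm_I, mul_one]
    linarith

/-- intervals -/
theorem fourier_int {d : ℤ} (hd : d % 6 = 1 ∨ d % 6 = 5) {s : ℤ} (hs : s = 1 ∨ s = -1) {ε : ℝ} (hε : 0 < ε)
    (hε1 : ε ≤ 1) : ∃ N0 : ℕ, 1 ≤ N0 ∧
    ∀ S : Set ℤ, Inv d S → ∀ φ : ℤ → ℝ, IsPhi d s S φ → ∀ X : ℕ, N0 ≤ X → ∀ N : ℕ, N ≤ X → ∀ M : ℕ, M ≤ N → ∀ α : ℝ,
      ‖EE (res M N (balD s S φ)) X α‖ ≤ ε * X := by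
  obtain ⟨n0, hn0, h⟩ := fourier_inv hd hs (show 0 < ε / 2 by positivity) (by linarith)
  obtain ⟨n1, hn1⟩ := exists_nat_ge (2 * n0 / ε)
  refine ⟨n0 + n1, by omega, fun S hS φ hφ X hX N hN M hM α => ?_⟩
  have hb : ∀ n : ℕ, n ≤ X → ‖EE (balD s S φ) n α‖ ≤ ε / 2 * X := by
    intro n hn
    rcases le_or_gt n0 n with h1 | h1
    · refine (h S hS φ hφ n h1 α).trans ?_
      have : (n : ℝ) ≤ X := by exact_mod_cast hn
      exact mul_le_mul_of_nonneg_left this (by positivity)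
    · refine (EE_triv (balD_abs hφ) n α).trans ?_
      have h2 : 2 * n0 / ε ≤ X := hn1.trans (by exact_mod_cast (by omega : n1 ≤ X))
      rw [div_le_iff₀ hε] at h2
      have h3 : (n : ℝ) ≤ n0 := by exact_mod_cast h1.le
      linarith
  rw [EE_res _ hM hN]
  refine (norm_sub_le _ _).trans ?_
  have := hb N hN
  have := hb M (hM.trans hN)
  linarith

end Pool.Agent.W36.FD
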