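import Pool.Agent.W36.FD.FD6
import Pool.Agent.W41.FU12

/-! Linear equations in invariant sets of the maps with a constant `d`. -/

set_option autoImplicit false

namespace Pool.Agent.W36.FD

open Finset Pool.Agent.H499R2.ND Pool.Agent.W41 Pool.Agent.W41.FU

/-- the local density as a function on the side `s` -/
noncomputable def sph (s : ℤ) (φ : ℤ → ℝ) (x : ℤ) : ℝ := φ (s * x)

theorem sph_abs {d s : ℤ} {S : Set ℤ} {φ : ℤ → ℝ} (h : IsPhi d s S φ) (x : ℤ) : |sph s φ x| ≤ 1 := by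
  unfold sph
  obtain ⟨h4, h5⟩ := h.1 (s * x)
  rw [abs_of_nonneg h4]
  exact h5

theorem sph_per {d s : ℤ} {S : Set ℤ} {φ : ℤ → ℝ} (h : IsPhi d s S φ) {x y : ℤ} (hxy : d ∣ x - y) :
    sph s φ x = sph s φ y := by
  unfold sph
  apply h.2.1
  apply rel_of_dvd
  rw [← mul_sub]
  exact hxy.mul_left _

theorem res_balD (M N : ℕ) (s : ℤ) (S : Set ℤ) (φ : ℤ → ℝ) :
    (fun x => res M N (ind s S) x - res M N (sph s φ) x) = res M N (balD s S φ) := by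
  funext x
  unfold res balD sph
  split_ifs <;> ring

/-- replacing the three functions -/
theorem TT_replace {f f' g g' h h' : ℤ → ℝ} (hf' : ∀ x, |f' x| ≤ 1) (hg : ∀ x, |g x| ≤ 1)
    (hg' : ∀ x, |g' x| ≤ 1) (hh : ∀ x, |h x| ≤ 1)
    (df : ∀ x, |f x - f' x| ≤ 1) (dg : ∀ x, |g x - g' x| ≤ 1) (dh : ∀ x, |h x - h' x| ≤ 1) {X : ℕ} {K : ℝ}
    (kf : ∀ α, ‖EE (fun x => f x - f' x) X α‖ ≤ K) (kg : ∀ α, ‖EE (fun x => g x - g' x) X α‖ ≤ K)
    (kh : ∀ α, ‖EE (fun x => h x - h' x) X α‖ ≤ K) {a b c : ℤ} (ha : a ≠ 0) (hb : b ≠ 0) (hc : c ≠ 0) (m : ℤ) :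
    |TT f g h X a b c m - TT f' g' h' X a b c m| ≤ 3 * (K * X) := by
  have e : TT f g h X a b c m - TT f' g' h' X a b c m =
      (TT f g h X a b c m - TT f' g h X a b c m) + (TT f' g h X a b c m - TT f' g' h X a b c m)
      + (TT f' g' h X a b c m - TT f' g' h' X a b c m) := by ring
  rw [e, TT_sub1, TT_sub2, TT_sub3]
  have b1 := TT_bound (f := fun x => f x - f' x) (g := g) (h := h) ha hb hc m df hg hh (Or.inl kf)
  have b2 := TT_bound (f := f') (g := fun x => g x - g' x) (h := h) ha hb hc m hf' dg hh (Or.inr (Or.inl kg))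
  have b3 := TT_bound (f := f') (g := g') (h := fun x => h x - h' x) ha hb hc m hf' hg' dh (Or.inr (Or.inr kh))
  refine (abs_add_three _ _ _).trans ?_
  linarith

/-- the number of solutions of a linear equation in three invariant sets -/
theorem solutions {d : ℤ} (hd : d % 6 = 1 ∨ d % 6 = 5) {s t v : ℤ} (hs : s = 1 ∨ s = -1) (ht : t = 1 ∨ t = -1)
    (hv : v = 1 ∨ v = -1) {ε : ℝ} (hε : 0 < ε) (hε1 : ε ≤ 1) : ∃ N0 : ℕ, 1 ≤ N0 ∧ ∀ S T V : Set ℤ, Inv d S → Inv d T → Inv d V →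
    ∀ φ τ ν : ℤ → ℝ, IsPhi d s S φ → IsPhi d t T τ → IsPhi d v V ν →
    ∀ X : ℕ, N0 ≤ X → ∀ N₁ N₂ N₃ : ℕ, N₁ ≤ X → N₂ ≤ X → N₃ ≤ X → ∀ M₁ M₂ M₃ : ℕ, M₁ ≤ N₁ → M₂ ≤ N₂ → M₃ ≤ N₃ →
    ∀ a b c m : ℤ, a ≠ 0 → b ≠ 0 → c ≠ 0 →
    |TT (res M₁ N₁ (ind s S)) (res M₂ N₂ (ind t T)) (res M₃ N₃ (ind v V)) X a b c m
      - TT (res M₁ N₁ (sph s φ)) (res M₂ N₂ (sph t τ)) (res M₃ N₃ (sph v ν)) X a b c m|
      ≤ ε * X ^ 2 := by
  have hε3 : 0 < ε / 3 := by positivity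
  obtain ⟨n1, hn1, h1⟩ := fourier_int hd hs hε3 (by linarith)
  obtain ⟨n2, hn2, h2⟩ := fourier_int hd ht hε3 (by linarith)
  obtain ⟨n3, hn3, h3⟩ := fourier_int hd hv hε3 (by linarith)
  refine ⟨n1 + n2 + n3, by omega, ?_⟩
  intro S T V hS hT hV φ τ ν hφ hτ hν X hX N₁ N₂ N₃ hN1 hN2 hN3 M₁ M₂ M₃ hM1 hM2 hM3 a b c m ha hb hc
  have dd : ∀ (M N : ℕ) {s : ℤ} {S : Set ℤ} {φ : ℤ → ℝ}, IsPhi d s S φ → ∀ x,
      |res M N (ind s S) x - res M N (sph s φ) x| ≤ 1 := by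
    intro M N s S φ hφ x
    have := res_abs (balD_abs hφ) M N x
    rw [← res_balD] at this
    exact this
  have := TT_replace (f := res M₁ N₁ (ind s S)) (f' := res M₁ N₁ (sph s φ)) (g := res M₂ N₂ (ind t T))
    (g' := res M₂ N₂ (sph t τ)) (h := res M₃ N₃ (ind v V)) (h' := res M₃ N₃ (sph v ν))
    (res_abs (sph_abs hφ) _ _) (res_abs (ind_abs t T) _ _) (res_abs (sph_abs hτ) _ _) (res_abs (ind_abs v V) _ _)
    (dd _ _ hφ) (dd _ _ hτ) (dd _ _ hν) (X := X) (K := ε / 3 * X)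
    (by rw [res_balD]; exact h1 S hS φ hφ X (by omega) N₁ hN1 M₁ hM1)
    (by rw [res_balD]; exact h2 T hT τ hτ X (by omega) N₂ hN2 M₂ hM2)
    (by rw [res_balD]; exact h3 V hV ν hν X (by omega) N₃ hN3 M₃ hM3) ha hb hc m
  refine this.trans (le_of_eq ?_)
  ring

/-- from weighted sums to absolute values -/
theorem exc {F : ℕ → ℝ} {N : ℕ} {K : ℝ}
    (hK : ∀ w : ℤ → ℝ, (∀ x, |w x| ≤ 1) → |∑ n ∈ Icc 1 N, w (n : ℕ) * F n| ≤ K) :
    ∑ n ∈ Icc 1 N, |F n| ≤ K := by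
  have h := hK (fun x => if 0 ≤ F x.toNat then (1 : ℝ) else -1) (by
    intro x
    split_ifs <;> norm_num)
  refine le_trans (le_of_eq ?_) ((le_abs_self _).trans h)
  apply sum_congr rfl
  intro n _
  simp only [Int.toNat_natCast]
  by_cases h0 : 0 ≤ F n
  · rw [if_pos h0, abs_of_nonneg h0, one_mul]
  · rw [if_neg h0, abs_of_neg (not_le.1 h0)]; ring

theorem markov {F : ℕ → ℝ} {N : ℕ} {K L : ℝ} (hL : 0 < L) (h : ∑ n ∈ Icc 1 N, |F n| ≤ K) :
    ({n : ℕ | 1 ≤ n ∧ n ≤ N ∧ L < |F n|}.ncard : ℝ) ≤ K / L := by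
  classical
  have e : {n : ℕ | 1 ≤ n ∧ n ≤ N ∧ L < |F n|} = ((Icc 1 N).filter (fun n => L < |F n|) : Finset ℕ) := by
    ext n
    simp only [Set.mem_ofPred_eq, coe_filter, mem_Icc]
    tauto
  rw [e, Set.ncard_coe_finset, le_div_iff₀ hL]
  refine le_trans ?_ h
  calc (((Icc 1 N).filter (fun n => L < |F n|)).card : ℝ) * L
      = ∑ n ∈ (Icc 1 N).filter (fun n => L < |F n|), L := by rw [sum_const, nsmul_eq_mul]
    _ ≤ ∑ n ∈ (Icc 1 N).filter (fun n => L < |F n|), |F n| :=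
        sum_le_sum fun n hn => (mem_filter.1 hn).2.le
    _ ≤ _ := sum_le_sum_of_subset_of_nonneg (filter_subset _ _) fun _ _ _ => abs_nonneg _

/-- sums of periodic functions -/
theorem per_sum {D : ℕ} (hD : 1 ≤ D) {g : ℤ → ℝ} (h0 : ∀ x, 0 ≤ g x) (h1 : ∀ x, g x ≤ 1)
    (hg : ∀ x y : ℤ, (D : ℤ) ∣ x - y → g x = g y) (n : ℕ) :
    |∑ x ∈ Icc 1 n, g (x : ℕ) - n * ((∑ u ∈ range D, g (u : ℕ)) / D)| ≤ D := by
  have hDR : (0 : ℝ) < (D : ℝ) := by exact_mod_cast hD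
  rw [sum_classes (s := 1) hD (fun x => g (x : ℕ))]
  have e1 : ∀ c ∈ range D, ∑ x ∈ (Icc 1 n).filter (fun x : ℕ => 1 * (x : ℤ) ≡ (c : ℤ) [ZMOD D]), g (x : ℕ)
      = g (c : ℕ) * cA 1 Set.univ D (c : ℤ) n := by
    intro c _
    have : ∀ x ∈ (Icc 1 n).filter (fun x : ℕ => 1 * (x : ℤ) ≡ (c : ℤ) [ZMOD D]), g (x : ℕ) = g (c : ℕ) := by
      intro x hx
      rw [mem_filter, one_mul] at hx
      exact hg _ _ hx.2.symm.dvd
    rw [sum_congr rfl this, sum_const, nsmul_eq_mul, mul_comm]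
    congr 2
    unfold cA
    congr 1
    ext m
    simp only [mem_filter, Set.mem_univ, true_and]
  rw [sum_congr rfl e1]
  have e2 : ∑ c ∈ range D, g (c : ℕ) * (cA 1 Set.univ D (c : ℤ) n : ℝ) - n * ((∑ u ∈ range D, g (u : ℕ)) / D)
      = ∑ c ∈ range D, g (c : ℕ) * ((cA 1 Set.univ D (c : ℤ) n : ℝ) - n / D) := by
    have : (n : ℝ) * ((∑ u ∈ range D, g (u : ℕ)) / D) = ∑ c ∈ range D, g (c : ℕ) * (n / D) := by
      rw [← sum_mul]; ring
    rw [this, ← sum_sub_distrib]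
    apply sum_congr rfl
    intro c _
    ring
  rw [e2]
  refine (abs_sum_le_sum_abs _ _).trans ?_
  calc ∑ c ∈ range D, |g (c : ℕ) * ((cA 1 Set.univ D (c : ℤ) n : ℝ) - n / D)| ≤ ∑ c ∈ range D, (1 : ℝ) := by
        apply sum_le_sum
        intro c _
        rw [abs_mul, abs_of_nonneg (h0 _)]
        have a1 := cA_univ (s := 1) (Or.inl rfl) hD (c : ℤ) n
        have a2 := h1 (c : ℕ)
        have a3 := h0 (c : ℕ)
        have a4 := abs_nonneg ((cA 1 Set.univ D (c : ℤ) n : ℝ) - n / D)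
        nlinarith
    _ = D := by rw [sum_const, card_range, nsmul_eq_mul, mul_one]

/-- the mean of the products `φ (s u) τ (s (n - u))` -/
noncomputable def locR (D : ℕ) (s : ℤ) (φ τ : ℤ → ℝ) (n : ℤ) : ℝ :=
  (∑ u ∈ range D, φ (s * (u : ℕ)) * τ (s * (n - (u : ℕ)))) / D

/-- the mean of the products `φ (s u) τ (s (u + h))` -/
noncomputable def locC (D : ℕ) (s : ℤ) (φ τ : ℤ → ℝ) (h : ℤ) : ℝ :=
  (∑ u ∈ range D, φ (s * (u : ℕ)) * τ (s * ((u : ℕ) + h))) / D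

/-- representations with periodic weights -/
theorem R2_per {d s : ℤ} (hd1 : 1 ≤ d.natAbs) {S T : Set ℤ} {φ τ : ℤ → ℝ} (hφ : IsPhi d s S φ) (hτ : IsPhi d s T τ)
    {N n : ℕ} (hn : 1 ≤ n) (hnN : n ≤ N) :
    |R2 (res 0 N (sph s φ)) (res 0 N (sph s τ)) N n - n * locR d.natAbs s φ τ n| ≤ d.natAbs + 1 := by
  have e1 : R2 (res 0 N (sph s φ)) (res 0 N (sph s τ)) N n
      = ∑ x ∈ Icc 1 (n - 1), sph s φ (x : ℕ) * sph s τ ((n : ℕ) - (x : ℕ)) := by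
    unfold R2
    have e2 : ∀ x ∈ Icc 1 N, ∑ y ∈ Icc 1 N, (if x + y = n then res 0 N (sph s φ) (x : ℕ) * res 0 N (sph s τ) (y : ℕ) else 0)
        = if x < n then sph s φ (x : ℕ) * sph s τ ((n : ℕ) - (x : ℕ)) else 0 := by
      intro x hx
      rw [mem_Icc] at hx
      by_cases h : x < n
      · rw [if_pos h, sum_eq_single (n - x)]
        · rw [if_pos (by omega)]
          unfold res
          rw [if_pos (by omega), if_pos (by omega)]
          congr 2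
          omega
        · intro y _ hy
          rw [if_neg (by omega)]
        · intro h2
          rw [mem_Icc] at h2
          omega
      · rw [if_neg h]
        apply sum_eq_zero
        intro y hy
        rw [mem_Icc] at hy
        rw [if_neg (by omega)]
    rw [sum_congr rfl e2, ← sum_filter]
    apply sum_congr _ fun _ _ => rfl
    ext x
    simp only [mem_filter, mem_Icc]
    omega
  rw [e1]
  have h0 : ∀ x : ℤ, 0 ≤ sph s φ x * sph s τ ((n : ℕ) - x) := fun x => mul_nonneg (hφ.1 _).1 (hτ.1 _).1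
  have h1 : ∀ x : ℤ, sph s φ x * sph s τ ((n : ℕ) - x) ≤ 1 := fun x => by
    have a1 := (hφ.1 (s * x)).1
    have a2 := (hφ.1 (s * x)).2
    have a3 := (hτ.1 (s * ((n : ℕ) - x))).1
    have a4 := (hτ.1 (s * ((n : ℕ) - x))).2
    unfold sph
    nlinarith
  have hp := per_sum hd1 (g := fun x : ℤ => sph s φ x * sph s τ ((n : ℕ) - x)) h0 h1 (by
    intro x y hxy
    have hxy' : d ∣ x - y := Int.natAbs_dvd.1 hxy
    rw [sph_per hφ hxy', sph_per hτ (x := (n : ℕ) - x) (y := (n : ℕ) - y) (by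
      have : ((n : ℕ) : ℤ) - x - ((n : ℕ) - y) = -(x - y) := by ring
      rw [this]; exact hxy'.neg_right)]) (n - 1)
  have e3 : (∑ u ∈ range d.natAbs, (fun x : ℤ => sph s φ x * sph s τ ((n : ℕ) - x)) (u : ℕ)) / (d.natAbs : ℝ)
      = locR d.natAbs s φ τ n := rfl
  rw [e3] at hp
  have e4 : (((n - 1 : ℕ) : ℕ) : ℝ) = n - 1 := by push_cast [Nat.cast_sub hn]; ring
  rw [e4] at hp
  have hloc0 : 0 ≤ locR d.natAbs s φ τ n := by
    unfold locR
    exact div_nonneg (sum_nonneg fun u _ => h0 (u : ℕ)) (Nat.cast_nonneg _)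
  have hloc1 : locR d.natAbs s φ τ n ≤ 1 := by
    unfold locR
    apply div_le_one_of_le₀ _ (Nat.cast_nonneg _)
    calc ∑ u ∈ range d.natAbs, φ (s * (u : ℕ)) * τ (s * ((n : ℕ) - (u : ℕ))) ≤ ∑ u ∈ range d.natAbs, (1 : ℝ) :=
          sum_le_sum fun u _ => h1 (u : ℕ)
      _ = _ := by rw [sum_const, card_range, nsmul_eq_mul, mul_one]
  have e5 : ∑ x ∈ Icc 1 (n - 1), sph s φ (x : ℕ) * sph s τ ((n : ℕ) - (x : ℕ)) - n * locR d.natAbs s φ τ n
      = (∑ x ∈ Icc 1 (n - 1), (fun x : ℤ => sph s φ x * sph s τ ((n : ℕ) - x)) (x : ℕ) - (n - 1) * locR d.natAbs s φ τ n)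
        - locR d.natAbs s φ τ n := by ring
  rw [e5]
  refine (abs_sub _ _).trans ?_
  rw [abs_of_nonneg hloc0]
  linarith

theorem Cor_per {d s : ℤ} (hd1 : 1 ≤ d.natAbs) {S T : Set ℤ} {φ τ : ℤ → ℝ} (hφ : IsPhi d s S φ) (hτ : IsPhi d s T τ)
    (N h : ℕ) : |Cor (sph s φ) (sph s τ) N h - N * locC d.natAbs s φ τ h| ≤ d.natAbs := by
  have h0 : ∀ x : ℤ, 0 ≤ sph s φ x * sph s τ (x + (h : ℕ)) := fun x => mul_nonneg (hφ.1 _).1 (hτ.1 _).1
  have h1 : ∀ x : ℤ, sph s φ x * sph s τ (x + (h : ℕ)) ≤ 1 := fun x => by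
    have a1 := (hφ.1 (s * x)).1
    have a2 := (hφ.1 (s * x)).2
    have a3 := (hτ.1 (s * (x + (h : ℕ)))).1
    have a4 := (hτ.1 (s * (x + (h : ℕ)))).2
    unfold sph
    nlinarith
  have hp := per_sum hd1 (g := fun x : ℤ => sph s φ x * sph s τ (x + (h : ℕ))) h0 h1 (by
    intro x y hxy
    have hxy' : d ∣ x - y := Int.natAbs_dvd.1 hxy
    rw [sph_per hφ hxy', sph_per hτ (x := x + (h : ℕ)) (y := y + (h : ℕ)) (by
      have : x + (h : ℕ) - (y + (h : ℕ)) = (x - y) := by ring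
      rw [this]; exact hxy')]) N
  exact hp

/-- almost every integer is a sum of two elements in the expected number of ways -/
theorem two_sum {d : ℤ} (hd : d % 6 = 1 ∨ d % 6 = 5) {s : ℤ} (hs : s = 1 ∨ s = -1) {ε : ℝ} (hε : 0 < ε) (hε1 : ε ≤ 1) :
    ∃ N0 : ℕ, 1 ≤ N0 ∧ ∀ S T : Set ℤ, Inv d S → Inv d T → ∀ φ τ : ℤ → ℝ, IsPhi d s S φ → IsPhi d s T τ →
    ∀ N : ℕ, N0 ≤ N →
    ({n : ℕ | 1 ≤ n ∧ n ≤ N ∧ ε * N < |({p : ℤ × ℤ | p.1 ∈ S ∧ p.2 ∈ T ∧ 0 < s * p.1 ∧ 0 < s * p.2 ∧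
      p.1 + p.2 = s * n}.ncard : ℝ) - n * locR d.natAbs s φ τ n|}.ncard : ℝ) ≤ ε * N := by
  have hd1 : 1 ≤ d.natAbs := by omega
  have hε2 : 0 < ε ^ 2 / 4 := by positivity
  obtain ⟨n1, hn1, h1⟩ := fourier_int hd hs hε2 (by nlinarith)
  obtain ⟨n2, hn2⟩ := exists_nat_ge (2 * ((d.natAbs : ℝ) + 1) / ε)
  refine ⟨n1 + n2, by omega, ?_⟩
  intro S T hS hT φ τ hφ hτ N hN
  have hN0 : (0 : ℝ) < N := by exact_mod_cast (by omega : 0 < N)
  have hεN : (d.natAbs : ℝ) + 1 ≤ ε / 2 * N := by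
    have : 2 * ((d.natAbs : ℝ) + 1) / ε ≤ N := hn2.trans (by exact_mod_cast (by omega : n2 ≤ N))
    rw [div_le_iff₀ hε] at this
    linarith
  set F : ℕ → ℝ := fun n => R2 (res 0 N (ind s S)) (res 0 N (ind s T)) N n
    - R2 (res 0 N (sph s φ)) (res 0 N (sph s τ)) N n with hF
  have hsum : ∑ n ∈ Icc 1 N, |F n| ≤ ε ^ 2 / 2 * N * N := by
    apply exc
    intro w hw
    have e0 : ∑ n ∈ Icc 1 N, w (n : ℕ) * F n = TT (res 0 N (ind s S)) (res 0 N (ind s T)) w N 1 1 (-1) 0 -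
        TT (res 0 N (sph s φ)) (res 0 N (sph s τ)) w N 1 1 (-1) 0 := by
      rw [TT_R2, TT_R2, ← sum_sub_distrib]
      apply sum_congr rfl
      intro n _
      rw [hF]
      ring
    rw [e0]
    have e : TT (res 0 N (ind s S)) (res 0 N (ind s T)) w N 1 1 (-1) 0 -
        TT (res 0 N (sph s φ)) (res 0 N (sph s τ)) w N 1 1 (-1) 0 =
        (TT (res 0 N (ind s S)) (res 0 N (ind s T)) w N 1 1 (-1) 0
          - TT (res 0 N (sph s φ)) (res 0 N (ind s T)) w N 1 1 (-1) 0)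
        + (TT (res 0 N (sph s φ)) (res 0 N (ind s T)) w N 1 1 (-1) 0
          - TT (res 0 N (sph s φ)) (res 0 N (sph s τ)) w N 1 1 (-1) 0) := by ring
    rw [e, TT_sub1, TT_sub2, res_balD, res_balD]
    have b1 := TT_bound (f := res 0 N (balD s S φ)) (g := res 0 N (ind s T)) (h := w) (one_ne_zero) (one_ne_zero)
      (by norm_num : (-1 : ℤ) ≠ 0) 0
      (res_abs (balD_abs hφ) _ _) (res_abs (ind_abs s T) _ _) hw
      (Or.inl (h1 S hS φ hφ N (by omega) N le_rfl 0 (by omega)))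
    have b2 := TT_bound (f := res 0 N (sph s φ)) (g := res 0 N (balD s T τ)) (h := w) (one_ne_zero) (one_ne_zero)
      (by norm_num : (-1 : ℤ) ≠ 0) 0
      (res_abs (sph_abs hφ) _ _) (res_abs (balD_abs hτ) _ _) hw
      (Or.inr (Or.inl (h1 T hT τ hτ N (by omega) N le_rfl 0 (by omega))))
    refine (abs_add_le _ _).trans ?_
    linarith
  have hm := markov (show 0 < ε / 2 * N by positivity) hsum
  have e3 : ε ^ 2 / 2 * N * N / (ε / 2 * N) = ε * N := by field_simp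
  rw [e3] at hm
  refine le_trans ?_ hm
  norm_cast
  apply Set.ncard_le_ncard
  · rintro n ⟨a1, a2, a3⟩
    refine ⟨a1, a2, ?_⟩
    rw [← R2_count hs S T a2] at a3
    have h4 := R2_per hd1 hφ hτ a1 a2
    have e4 : R2 (res 0 N (ind s S)) (res 0 N (ind s T)) N n - n * locR d.natAbs s φ τ n
        = F n + (R2 (res 0 N (sph s φ)) (res 0 N (sph s τ)) N n - n * locR d.natAbs s φ τ n) := by
      rw [hF]; ring
    rw [e4] at a3
    have h5 := abs_add_le (F n) (R2 (res 0 N (sph s φ)) (res 0 N (sph s τ)) N n - n * locR d.natAbs s φ τ n)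
    linarith
  · apply (Set.finite_Icc 1 N).subset
    rintro n ⟨a1, a2, -⟩
    exact ⟨a1, a2⟩

/-- almost all shifts -/
theorem shifts {d : ℤ} (hd : d % 6 = 1 ∨ d % 6 = 5) {s : ℤ} (hs : s = 1 ∨ s = -1) {ε : ℝ} (hε : 0 < ε) (hε1 : ε ≤ 1) :
    ∃ N0 : ℕ, 1 ≤ N0 ∧ ∀ S T : Set ℤ, Inv d S → Inv d T → ∀ φ τ : ℤ → ℝ, IsPhi d s S φ → IsPhi d s T τ →
    ∀ N : ℕ, N0 ≤ N →
    ({h : ℕ | 1 ≤ h ∧ h ≤ N ∧ ε * N < |({x : ℤ | x ∈ S ∧ x + s * h ∈ T ∧ 0 < s * x ∧ s * x ≤ N}.ncard : ℝ)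
      - N * locC d.natAbs s φ τ h|}.ncard : ℝ) ≤ ε * N := by
  have hd1 : 1 ≤ d.natAbs := by omega
  have hε2 : 0 < ε ^ 2 / 16 := by positivity
  obtain ⟨n1, hn1, h1⟩ := fourier_int hd hs hε2 (by nlinarith)
  obtain ⟨n2, hn2⟩ := exists_nat_ge (2 * ((d.natAbs : ℝ) + 1) / ε)
  refine ⟨n1 + n2, by omega, ?_⟩
  intro S T hS hT φ τ hφ hτ N hN
  have hN0 : (0 : ℝ) < N := by exact_mod_cast (by omega : 0 < N)
  have hεN : (d.natAbs : ℝ) + 1 ≤ ε / 2 * N := by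
    have : 2 * ((d.natAbs : ℝ) + 1) / ε ≤ N := hn2.trans (by exact_mod_cast (by omega : n2 ≤ N))
    rw [div_le_iff₀ hε] at this
    linarith
  have hX : n1 ≤ 2 * N := by omega
  set F : ℕ → ℝ := fun h => Cor (ind s S) (ind s T) N h - Cor (sph s φ) (sph s τ) N h with hF
  have hsum : ∑ n ∈ Icc 1 N, |F n| ≤ ε ^ 2 / 2 * N * N := by
    apply exc
    intro w hw
    have e0 : ∑ n ∈ Icc 1 N, w (n : ℕ) * F n =
        TT (res 0 N (balD s S φ)) (res 0 (2 * N) (ind s T)) (res 0 N w) (2 * N) 1 (-1) 1 0 +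
        TT (res 0 N (sph s φ)) (res 0 (2 * N) (balD s T τ)) (res 0 N w) (2 * N) 1 (-1) 1 0 := by
      rw [TT_cor, TT_cor, ← sum_add_distrib]
      apply sum_congr rfl
      intro h _
      rw [← mul_add]
      congr 1
      rw [hF]
      unfold Cor
      simp only
      rw [← sum_add_distrib, ← sum_sub_distrib]
      apply sum_congr rfl
      intro x _
      unfold balD sph
      ring
    rw [e0]
    have b1 := TT_bound (f := res 0 N (balD s S φ)) (g := res 0 (2 * N) (ind s T)) (h := res 0 N w) (N := 2 * N) (one_ne_zero)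
      (by norm_num : (-1 : ℤ) ≠ 0) (one_ne_zero) 0
      (res_abs (balD_abs hφ) _ _) (res_abs (ind_abs s T) _ _) (res_abs hw _ _)
      (Or.inl (h1 S hS φ hφ (2 * N) hX N (by omega) 0 (by omega)))
    have b2 := TT_bound (f := res 0 N (sph s φ)) (g := res 0 (2 * N) (balD s T τ)) (h := res 0 N w) (N := 2 * N) (one_ne_zero)
      (by norm_num : (-1 : ℤ) ≠ 0) (one_ne_zero) 0
      (res_abs (sph_abs hφ) _ _) (res_abs (balD_abs hτ) _ _) (res_abs hw _ _)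
      (Or.inr (Or.inl (h1 T hT τ hτ (2 * N) hX (2 * N) le_rfl 0 (by omega))))
    refine (abs_add_le _ _).trans ?_
    push_cast at b1 b2
    linarith
  have hm := markov (show 0 < ε / 2 * N by positivity) hsum
  have e3 : ε ^ 2 / 2 * N * N / (ε / 2 * N) = ε * N := by field_simp
  rw [e3] at hm
  refine le_trans ?_ hm
  norm_cast
  apply Set.ncard_le_ncard
  · rintro h ⟨a1, a2, a3⟩
    refine ⟨a1, a2, ?_⟩
    rw [← cor_count hs S T] at a3
    have h4 := Cor_per hd1 hφ hτ N h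
    have e4 : Cor (ind s S) (ind s T) N h - N * locC d.natAbs s φ τ h
        = F h + (Cor (sph s φ) (sph s τ) N h - N * locC d.natAbs s φ τ h) := by
      rw [hF]; ring
    rw [e4] at a3
    have h5 := abs_add_le (F h) (Cor (sph s φ) (sph s τ) N h - N * locC d.natAbs s φ τ h)
    linarith
  · apply (Set.finite_Icc 1 N).subset
    rintro n ⟨a1, a2, -⟩
    exact ⟨a1, a2⟩

end Pool.Agent.W36.FD
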