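import Pool.Agent.W36.FD.FD7

/-! Lower bounds for the numbers of solutions of linear equations with local weights. -/

set_option autoImplicit false

namespace Pool.Agent.W36.FD

open Finset Pool.Agent.H499R2.ND Pool.Agent.W41 Pool.Agent.W41.FU

abbrev RelK := Pool.Agent.Results.MP_7f88e4_nt.ResidueClasses.Rel

/-- a two-parameter family of solutions -/
theorem TT_lower {f g h : ℤ → ℝ} (hf : ∀ x, 0 ≤ f x) (hg : ∀ x, 0 ≤ g x) (hh : ∀ x, 0 ≤ h x) {N K : ℕ}
    {a b c m : ℤ} (P : ℕ → ℕ → ℕ × ℕ × ℕ) (hinj : ∀ p q p' q', P p q = P p' q' → p = p' ∧ q = q') {κ : ℝ}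
    (hP : ∀ p q : ℕ, 1 ≤ p → p ≤ K → 1 ≤ q → q ≤ K →
      ((1 ≤ (P p q).1 ∧ (P p q).1 ≤ N) ∧ (1 ≤ (P p q).2.1 ∧ (P p q).2.1 ≤ N) ∧ (1 ≤ (P p q).2.2 ∧ (P p q).2.2 ≤ N)) ∧
      a * ((P p q).1 : ℤ) + b * ((P p q).2.1 : ℤ) + c * ((P p q).2.2 : ℤ) = m ∧
      κ ≤ f ((P p q).1 : ℕ) * g ((P p q).2.1 : ℕ) * h ((P p q).2.2 : ℕ)) :
    (K : ℝ) ^ 2 * κ ≤ TT f g h N a b c m := by
  classical
  have e : TT f g h N a b c m = ∑ t ∈ Icc 1 N ×ˢ Icc 1 N ×ˢ Icc 1 N,
      (if a * (t.1 : ℕ) + b * (t.2.1 : ℕ) + c * (t.2.2 : ℕ) = m then f (t.1 : ℕ) * g (t.2.1 : ℕ) * h (t.2.2 : ℕ) else 0) := by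
    unfold TT
    rw [sum_product]
    apply sum_congr rfl
    intro x _
    rw [sum_product]
  rw [e]
  have hsub : ((Icc 1 K ×ˢ Icc 1 K).image (fun r : ℕ × ℕ => P r.1 r.2)) ⊆ Icc 1 N ×ˢ Icc 1 N ×ˢ Icc 1 N := by
    intro t ht
    rw [mem_image] at ht
    obtain ⟨r, hr, rfl⟩ := ht
    rw [mem_product, mem_Icc, mem_Icc] at hr
    obtain ⟨⟨h1, h2, h3⟩, -⟩ := hP r.1 r.2 hr.1.1 hr.1.2 hr.2.1 hr.2.2
    simp only [mem_product, mem_Icc]
    exact ⟨h1, h2, h3⟩
  refine le_trans ?_ (sum_le_sum_of_subset_of_nonneg hsub fun t _ _ => ?_)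
  · rw [sum_image (fun r _ r' _ hrr => by
      obtain ⟨h1, h2⟩ := hinj _ _ _ _ hrr
      exact Prod.ext h1 h2)]
    have h1 : ∀ r ∈ Icc 1 K ×ˢ Icc 1 K, κ ≤ (if a * ((P r.1 r.2).1 : ℕ) + b * ((P r.1 r.2).2.1 : ℕ) + c * ((P r.1 r.2).2.2 : ℕ) = m
        then f ((P r.1 r.2).1 : ℕ) * g ((P r.1 r.2).2.1 : ℕ) * h ((P r.1 r.2).2.2 : ℕ) else 0) := by
      intro r hr
      rw [mem_product, mem_Icc, mem_Icc] at hr
      obtain ⟨-, h2, h3⟩ := hP r.1 r.2 hr.1.1 hr.1.2 hr.2.1 hr.2.2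
      rw [if_pos h2]
      exact h3
    refine le_trans (le_of_eq ?_) (sum_le_sum h1)
    rw [sum_const, card_product, Nat.card_Icc, Nat.add_sub_cancel, nsmul_eq_mul]
    push_cast
    ring
  · split_ifs
    · exact mul_nonneg (mul_nonneg (hf _) (hg _)) (hh _)
    · exact le_rfl

theorem res_nonneg {f : ℤ → ℝ} (hf : ∀ x, 0 ≤ f x) (M N : ℕ) (x : ℤ) : 0 ≤ res M N f x := by
  unfold res
  split_ifs
  · exact hf x
  · exact le_rfl

theorem div_lower {N D : ℕ} (hD : 1 ≤ D) (hN : 2 * D ≤ N) : (N : ℝ) / (2 * D) ≤ ((N / D : ℕ) : ℝ) := by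
  have hD0 : (0 : ℝ) < D := by exact_mod_cast hD
  rw [div_le_iff₀ (by positivity)]
  have h1 : N < D * (N / D + 1) := Nat.lt_mul_div_succ N (by omega)
  have h2 : 1 ≤ N / D := (Nat.le_div_iff_mul_le (by omega)).2 (by omega)
  have h3 : N ≤ N / D * (2 * D) := by nlinarith
  exact_mod_cast h3

theorem s_abs {s : ℤ} (hs : s = 1 ∨ s = -1) (x : ℤ) : |s * x| = |x| := by
  rcases hs with rfl | rfl
  · rw [one_mul]
  · rw [neg_one_mul, abs_neg]

/-- value of the local density at a number in a class -/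
theorem sph_val {d s : ℤ} {S : Set ℤ} {φ : ℤ → ℝ} (hs : s = 1 ∨ s = -1) (h : IsPhi d s S φ) {x0 x1 n : ℤ}
    (hrel : RelK d x1 x0) (hn : d ∣ n - s * x1) : sph s φ n = φ x0 := by
  unfold sph
  rw [← h.2.1 x1 x0 hrel]
  apply h.2.1
  apply rel_of_dvd
  have := hn.mul_left s
  rwa [mul_sub, s_mul hs] at this

/-- many solutions of homogeneous equations, weighted form -/
theorem many_w {d : ℤ} (hd1 : 1 ≤ d.natAbs) {s : ℤ} (hs : s = 1 ∨ s = -1) {a b c : ℕ} (ha : 0 < a) (hb : 0 < b)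
    (hc : 0 < c) {S S' S'' : Set ℤ} {φ φ' φ'' : ℤ → ℝ} (hφ : IsPhi d s S φ) (hφ' : IsPhi d s S' φ')
    (hφ'' : IsPhi d s S'' φ'') {x0 y0 z0 x1 y1 z1 : ℤ} (h1 : RelK d x1 x0) (h2 : RelK d y1 y0) (h3 : RelK d z1 z0)
    (heq : a * x1 + b * y1 = c * z1) : ∃ W : ℕ, 1 ≤ W ∧ ∃ N0 : ℕ, ∀ N : ℕ, N0 ≤ N →
    ((N : ℝ) / (4 * W)) ^ 2 * (φ x0 * φ' y0 * φ'' z0) ≤
      TT (res 0 N (sph s φ)) (res 0 N (sph s φ')) (res 0 N (sph s φ'')) N (a * s) (b * s) (-c * s) 0 := by
  obtain ⟨D, hDdef⟩ : ∃ D : ℕ, D = d.natAbs := ⟨_, rfl⟩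
  have hD1 : 1 ≤ D := by omega
  have hDd : ∀ z : ℤ, (D : ℤ) ∣ z → d ∣ z := fun z hz => by rw [hDdef] at hz; exact Int.natAbs_dvd.1 hz
  obtain ⟨t0, ht0⟩ : ∃ t0 : ℕ, t0 = x1.natAbs + y1.natAbs + z1.natAbs := ⟨_, rfl⟩
  have hx1 : |s * x1| ≤ t0 := by rw [s_abs hs, Int.abs_eq_natAbs]; omega
  have hy1 : |s * y1| ≤ t0 := by rw [s_abs hs, Int.abs_eq_natAbs]; omega
  have hz1 : |s * z1| ≤ t0 := by rw [s_abs hs, Int.abs_eq_natAbs]; omega
  obtain ⟨W, hW⟩ : ∃ W : ℕ, W = (a + b + c) * D := ⟨_, rfl⟩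
  have hW1 : 1 ≤ W := by rw [hW]; exact Nat.mul_pos (by omega) hD1
  refine ⟨W, hW1, 4 * W + 2 * (t0 + W * t0), fun N hN => ?_⟩
  obtain ⟨K, hK⟩ : ∃ K : ℕ, K = N / (2 * W) := ⟨_, rfl⟩
  have hKN : 2 * W * K ≤ N := by rw [hK]; exact Nat.mul_div_le N (2 * W)
  -- the family
  have key := TT_lower (f := res 0 N (sph s φ)) (g := res 0 N (sph s φ')) (h := res 0 N (sph s φ''))
    (res_nonneg (fun x => (hφ.1 _).1) 0 N) (res_nonneg (fun x => (hφ'.1 _).1) 0 N) (res_nonneg (fun x => (hφ''.1 _).1) 0 N)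
    (N := N) (K := K) (a := a * s) (b := b * s) (c := -c * s) (m := 0)
    (fun p q => ((s * x1 + c * D * (t0 + p)).toNat, (s * y1 + c * D * (t0 + q)).toNat,
      (s * z1 + a * D * (t0 + p) + b * D * (t0 + q)).toNat)) (by
      intro p q p' q' hpq
      simp only [Prod.mk.injEq] at hpq
      obtain ⟨k1, k2, -⟩ := hpq
      have hcD : (1 : ℤ) ≤ c * D := by exact_mod_cast Nat.mul_pos hc hD1
      have m1 : ∀ p : ℕ, (t0 : ℤ) + p ≤ c * D * (t0 + p) := fun p => by
        have : (0 : ℤ) ≤ (t0 : ℤ) + p := by positivity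
        nlinarith
      have b1 := abs_le.1 hx1
      have b2 := abs_le.1 hy1
      have c1 := m1 p
      have c2 := m1 p'
      have c3 := m1 q
      have c4 := m1 q'
      constructor
      · have e1 : s * x1 + c * D * (t0 + p) = s * x1 + c * D * (t0 + p') := by omega
        have e2 : (c * D : ℤ) * ((p : ℤ) - p') = 0 := by linarith
        rcases mul_eq_zero.1 e2 with e3 | e3
        · omega
        · omega
      · have e1 : s * y1 + c * D * (t0 + q) = s * y1 + c * D * (t0 + q') := by omega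
        have e2 : (c * D : ℤ) * ((q : ℤ) - q') = 0 := by linarith
        rcases mul_eq_zero.1 e2 with e3 | e3
        · omega
        · omega) (κ := φ x0 * φ' y0 * φ'' z0) (by
      intro p q hp hpK hq hqK
      have hcD : (1 : ℤ) ≤ c * D := by exact_mod_cast Nat.mul_pos hc hD1
      have haD : (1 : ℤ) ≤ a * D := by exact_mod_cast Nat.mul_pos ha hD1
      have hbD : (1 : ℤ) ≤ b * D := by exact_mod_cast Nat.mul_pos hb hD1
      have hWZ : (W : ℤ) = a * D + b * D + c * D := by rw [hW]; push_cast; ring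
      have hpZ : (1 : ℤ) ≤ p := by exact_mod_cast hp
      have hqZ : (1 : ℤ) ≤ q := by exact_mod_cast hq
      have hpK' : (p : ℤ) ≤ K := by exact_mod_cast hpK
      have hqK' : (q : ℤ) ≤ K := by exact_mod_cast hqK
      have ht0' : (0 : ℤ) ≤ t0 := Int.natCast_nonneg _
      have low : ∀ e : ℤ, 1 ≤ e → ∀ p : ℤ, 1 ≤ p → (t0 : ℤ) + 1 ≤ e * (t0 + p) := fun e he p hp => by nlinarith
      have b1 := abs_le.1 hx1
      have b2 := abs_le.1 hy1
      have b3 := abs_le.1 hz1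
      have l1 := low _ hcD p hpZ
      have l2 := low _ hcD q hqZ
      have l3 := low _ haD p hpZ
      have l4 := low _ hbD q hqZ
      -- upper bounds
      have hNZ : (4 * W + 2 * (t0 + W * t0) : ℤ) ≤ N := by exact_mod_cast hN
      have hKNZ : (2 * W * K : ℤ) ≤ N := by exact_mod_cast hKN
      have u0 : ∀ e : ℤ, 0 ≤ e → ∀ p : ℤ, p ≤ K → e * (t0 + p) ≤ e * (t0 + K) := fun e he p hp =>
        mul_le_mul_of_nonneg_left (by linarith) he
      have u1 := u0 (c * D : ℤ) (by linarith) p hpK'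
      have u2 := u0 (c * D : ℤ) (by linarith) q hqK'
      have u3 := u0 (a * D : ℤ) (by linarith) p hpK'
      have u4 := u0 (b * D : ℤ) (by linarith) q hqK'
      have hsum : (a * D : ℤ) * (t0 + K) + (b * D : ℤ) * (t0 + K) + (c * D : ℤ) * (t0 + K) = W * t0 + W * K := by
        rw [hWZ]; ring
      have hK0 : (0 : ℤ) ≤ K := Int.natCast_nonneg _
      have z1' : (0 : ℤ) ≤ (a * D : ℤ) * (t0 + K) := by positivity
      have z2' : (0 : ℤ) ≤ (b * D : ℤ) * (t0 + K) := by positivity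
      have z3' : (0 : ℤ) ≤ (c * D : ℤ) * (t0 + K) := by positivity
      have x_pos : (1 : ℤ) ≤ s * x1 + c * D * (t0 + p) := by linarith
      have y_pos : (1 : ℤ) ≤ s * y1 + c * D * (t0 + q) := by linarith
      have z_pos : (1 : ℤ) ≤ s * z1 + a * D * (t0 + p) + b * D * (t0 + q) := by linarith
      have x_le : s * x1 + c * D * (t0 + p) ≤ N := by nlinarith
      have y_le : s * y1 + c * D * (t0 + q) ≤ N := by nlinarith
      have z_le : s * z1 + a * D * (t0 + p) + b * D * (t0 + q) ≤ N := by nlinarith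
      have tx : (((s * x1 + c * D * (t0 + p)).toNat : ℕ) : ℤ) = s * x1 + c * D * (t0 + p) :=
        Int.toNat_of_nonneg (by linarith)
      have ty : (((s * y1 + c * D * (t0 + q)).toNat : ℕ) : ℤ) = s * y1 + c * D * (t0 + q) :=
        Int.toNat_of_nonneg (by linarith)
      have tz : (((s * z1 + a * D * (t0 + p) + b * D * (t0 + q)).toNat : ℕ) : ℤ) =
        s * z1 + a * D * (t0 + p) + b * D * (t0 + q) := Int.toNat_of_nonneg (by linarith)
      simp only
      refine ⟨⟨⟨by omega, by omega⟩, ⟨by omega, by omega⟩, ⟨by omega, by omega⟩⟩, ?_, ?_⟩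
      · rw [tx, ty, tz]
        have hss : s * s = 1 := by rcases hs with rfl | rfl <;> norm_num
        linear_combination (s * s) * heq
      · have r1 : res 0 N (sph s φ) (((s * x1 + c * D * (t0 + p)).toNat : ℕ) : ℤ) = φ x0 := by
          unfold res
          rw [tx, if_pos (by constructor <;> push_cast <;> linarith)]
          apply sph_val hs hφ h1
          apply hDd
          exact ⟨c * (t0 + p), by ring⟩
        have r2 : res 0 N (sph s φ') (((s * y1 + c * D * (t0 + q)).toNat : ℕ) : ℤ) = φ' y0 := by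
          unfold res
          rw [ty, if_pos (by constructor <;> push_cast <;> linarith)]
          apply sph_val hs hφ' h2
          apply hDd
          exact ⟨c * (t0 + q), by ring⟩
        have r3 : res 0 N (sph s φ'') (((s * z1 + a * D * (t0 + p) + b * D * (t0 + q)).toNat : ℕ) : ℤ) = φ'' z0 := by
          unfold res
          rw [tz, if_pos (by constructor <;> push_cast <;> linarith)]
          apply sph_val hs hφ'' h3
          apply hDd
          exact ⟨a * (t0 + p) + b * (t0 + q), by ring⟩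
        rw [r1, r2, r3])
  refine le_trans ?_ key
  apply mul_le_mul_of_nonneg_right _ (mul_nonneg (mul_nonneg (hφ.1 _).1 (hφ'.1 _).1) (hφ''.1 _).1)
  have h6 := div_lower (by omega : 1 ≤ 2 * W) (by omega : 2 * (2 * W) ≤ N)
  rw [← hK] at h6
  apply pow_le_pow_left₀ (by positivity)
  refine le_trans (le_of_eq ?_) h6
  push_cast
  ring

/-- sums of three, weighted form -/
theorem three_w {d : ℤ} (hd1 : 1 ≤ d.natAbs) {s : ℤ} (hs : s = 1 ∨ s = -1) {S S' S'' : Set ℤ} {φ φ' φ'' : ℤ → ℝ}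
    (hφ : IsPhi d s S φ) (hφ' : IsPhi d s S' φ') (hφ'' : IsPhi d s S'' φ'') {x0 y0 z0 : ℤ} :
    ∃ W : ℕ, 1 ≤ W ∧ ∃ N0 : ℕ, ∀ N : ℕ, N0 ≤ N → (∃ u v w : ℤ, RelK d u x0 ∧ RelK d v y0 ∧ RelK d w z0 ∧
      d ∣ u + v + w - s * N) →
    ((N : ℝ) / (2 * W)) ^ 2 * (φ x0 * φ' y0 * φ'' z0) ≤
      TT (res 0 N (sph s φ)) (res 0 N (sph s φ')) (res 0 N (sph s φ'')) N (1 * s) (1 * s) (1 * s) (s * N) := by
  obtain ⟨D, hDdef⟩ : ∃ D : ℕ, D = d.natAbs := ⟨_, rfl⟩
  have hD1 : 1 ≤ D := by omega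
  have hD0 : (0 : ℤ) < D := by omega
  have hDd : ∀ z : ℤ, (D : ℤ) ∣ z → d ∣ z := fun z hz => by rw [hDdef] at hz; exact Int.natAbs_dvd.1 hz
  refine ⟨8 * D, by omega, 16 * D + 1, fun N hN => ?_⟩
  rintro ⟨u, v, w, h1, h2, h3, huvw⟩
  obtain ⟨K, hK⟩ : ∃ K : ℕ, K = N / (8 * D) := ⟨_, rfl⟩
  have hKN : 8 * D * K ≤ N := by rw [hK]; exact Nat.mul_div_le N (8 * D)
  obtain ⟨u', hu'⟩ : ∃ u' : ℤ, u' = (s * u) % D := ⟨_, rfl⟩
  obtain ⟨v', hv'⟩ : ∃ v' : ℤ, v' = (s * v) % D := ⟨_, rfl⟩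
  have hu0 : 0 ≤ u' := by rw [hu']; exact Int.emod_nonneg _ hD0.ne'
  have hu1 : u' < D := by rw [hu']; exact Int.emod_lt_of_pos _ hD0
  have hv0 : 0 ≤ v' := by rw [hv']; exact Int.emod_nonneg _ hD0.ne'
  have hv1 : v' < D := by rw [hv']; exact Int.emod_lt_of_pos _ hD0
  have hu2 : (D : ℤ) ∣ u' - s * u := by
    rw [hu']; have := Int.dvd_self_sub_emod (x := s * u) (m := (D : ℤ))
    rw [← neg_sub]; exact this.neg_right
  have hv2 : (D : ℤ) ∣ v' - s * v := by
    rw [hv']; have := Int.dvd_self_sub_emod (x := s * v) (m := (D : ℤ))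
    rw [← neg_sub]; exact this.neg_right
  have hss : s * s = 1 := by rcases hs with rfl | rfl <;> norm_num
  have hDD : (1 : ℤ) ≤ D := by omega
  have key := TT_lower (f := res 0 N (sph s φ)) (g := res 0 N (sph s φ')) (h := res 0 N (sph s φ''))
    (res_nonneg (fun x => (hφ.1 _).1) 0 N) (res_nonneg (fun x => (hφ'.1 _).1) 0 N) (res_nonneg (fun x => (hφ''.1 _).1) 0 N)
    (N := N) (K := K) (a := 1 * s) (b := 1 * s) (c := 1 * s) (m := s * N)
    (fun p q => ((u' + D * p).toNat, (v' + D * q).toNat, (N - (u' + D * p) - (v' + D * q)).toNat)) (by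
      intro p q p' q' hpq
      simp only [Prod.mk.injEq] at hpq
      obtain ⟨k1, k2, -⟩ := hpq
      have m1 : ∀ p : ℕ, (0 : ℤ) ≤ D * p := fun p => by positivity
      have c1 := m1 p
      have c2 := m1 p'
      have c3 := m1 q
      have c4 := m1 q'
      constructor
      · have e1 : u' + D * p = u' + D * p' := by omega
        have e2 : (D : ℤ) * ((p : ℤ) - p') = 0 := by linarith
        rcases mul_eq_zero.1 e2 with e3 | e3 <;> omega
      · have e1 : v' + D * q = v' + D * q' := by omega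
        have e2 : (D : ℤ) * ((q : ℤ) - q') = 0 := by linarith
        rcases mul_eq_zero.1 e2 with e3 | e3 <;> omega) (κ := φ x0 * φ' y0 * φ'' z0) (by
      intro p q hp hpK hq hqK
      have hpZ : (1 : ℤ) ≤ p := by exact_mod_cast hp
      have hqZ : (1 : ℤ) ≤ q := by exact_mod_cast hq
      have hpK' : (p : ℤ) ≤ K := by exact_mod_cast hpK
      have hqK' : (q : ℤ) ≤ K := by exact_mod_cast hqK
      have hNZ : (16 * D + 1 : ℤ) ≤ N := by exact_mod_cast hN
      have hKNZ : (8 * D * K : ℤ) ≤ N := by exact_mod_cast hKN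
      have l1 : (1 : ℤ) ≤ D * p := by nlinarith
      have l2 : (1 : ℤ) ≤ D * q := by nlinarith
      have u1 : (D : ℤ) * p ≤ D * K := mul_le_mul_of_nonneg_left hpK' hD0.le
      have u2 : (D : ℤ) * q ≤ D * K := mul_le_mul_of_nonneg_left hqK' hD0.le
      have x_pos : (1 : ℤ) ≤ u' + D * p := by linarith
      have y_pos : (1 : ℤ) ≤ v' + D * q := by linarith
      have z_pos : (1 : ℤ) ≤ N - (u' + D * p) - (v' + D * q) := by nlinarith
      have x_le : u' + D * p ≤ N := by linarith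
      have y_le : v' + D * q ≤ N := by linarith
      have z_le : N - (u' + D * p) - (v' + D * q) ≤ N := by linarith
      have tx : (((u' + D * p).toNat : ℕ) : ℤ) = u' + D * p := Int.toNat_of_nonneg (by linarith)
      have ty : (((v' + D * q).toNat : ℕ) : ℤ) = v' + D * q := Int.toNat_of_nonneg (by linarith)
      have tz : (((N - (u' + D * p) - (v' + D * q)).toNat : ℕ) : ℤ) = N - (u' + D * p) - (v' + D * q) :=
        Int.toNat_of_nonneg (by linarith)
      simp only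
      refine ⟨⟨⟨by omega, by omega⟩, ⟨by omega, by omega⟩, ⟨by omega, by omega⟩⟩, ?_, ?_⟩
      · rw [tx, ty, tz]
        ring
      · have r1 : res 0 N (sph s φ) (((u' + D * p).toNat : ℕ) : ℤ) = φ x0 := by
          unfold res
          rw [tx, if_pos (by constructor <;> push_cast <;> linarith)]
          apply sph_val hs hφ h1
          apply hDd
          have : u' + D * p - s * u = (u' - s * u) + D * p := by ring
          rw [this]
          exact dvd_add hu2 (dvd_mul_right _ _)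
        have r2 : res 0 N (sph s φ') (((v' + D * q).toNat : ℕ) : ℤ) = φ' y0 := by
          unfold res
          rw [ty, if_pos (by constructor <;> push_cast <;> linarith)]
          apply sph_val hs hφ' h2
          apply hDd
          have : v' + D * q - s * v = (v' - s * v) + D * q := by ring
          rw [this]
          exact dvd_add hv2 (dvd_mul_right _ _)
        have r3 : res 0 N (sph s φ'') (((N - (u' + D * p) - (v' + D * q)).toNat : ℕ) : ℤ) = φ'' z0 := by
          unfold res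
          rw [tz, if_pos (by constructor <;> push_cast <;> linarith)]
          apply sph_val hs hφ'' h3
          have e1 : (N : ℤ) - (u' + D * p) - (v' + D * q) - s * w =
              -(s * (u + v + w - s * N)) - ((u' - s * u) + (v' - s * v) + D * (p + q)) := by
            have : (N : ℤ) = s * s * N := by rw [hss]; ring
            linear_combination this
          rw [e1]
          apply dvd_sub
          · exact (huvw.mul_left s).neg_right
          · apply hDd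
            exact dvd_add (dvd_add hu2 hv2) (dvd_mul_right _ _)
        rw [r1, r2, r3])
  refine le_trans ?_ key
  apply mul_le_mul_of_nonneg_right _ (mul_nonneg (mul_nonneg (hφ.1 _).1 (hφ'.1 _).1) (hφ''.1 _).1)
  have h6 := div_lower (by omega : 1 ≤ 8 * D) (by omega : 2 * (8 * D) ≤ N)
  rw [← hK] at h6
  exact pow_le_pow_left₀ (by positivity) h6 2

end Pool.Agent.W36.FD
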